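import Pool.Agent.Y103.Hk.Gal

/-!
# Relations between the conjugates of several numbers
-/

set_option autoImplicit false
set_option linter.unusedSectionVars false

namespace Pool.Agent.Y103.Sh

open NumberField Polynomial Module Pool.Agent.TH121.KT Pool.Agent.Y103.Hk

section one

variable {p : ℕ} [Fact p.Prime] {ι : Qb →+* PadicAlgCl p} {E : Type} [Field E] [NumberField E]
  [IsCMField E] {α : E}

lemma sumInv_list2 {L₀ : IntermediateField ℚ Qb} {𝓛 : Set (IntermediateField ℚ Qb)}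
    (h𝓛 : ∀ L ∈ 𝓛, L = L₀ ∨ (IsStable L ∧ IsConjOver E L)) (C : ℝ) (l : List (ℝ × Qb))
    (hl : ∀ β ∈ l, ∃ L ∈ 𝓛, SlopeRoot ι L β.2) :
    ∃ S : List (IntermediateField ℚ Qb), (∀ L ∈ S, IsStable L ∧ IsConjOver E L) ∧
      SumInv L₀ S fun g => C + (l.map fun β => β.1 * Real.log ‖ι (g β.2)‖).sum := by
  induction l with
  | nil =>
    refine ⟨[], fun L hL => absurd hL List.not_mem_nil, ?_⟩
    intro h _ g
    simp
  | cons β l ih =>
    obtain ⟨S, hS, hsum⟩ := ih fun β' hβ' => hl β' (List.mem_cons_of_mem _ hβ')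
    obtain ⟨L, hL, hβ⟩ := hl β List.mem_cons_self
    rcases h𝓛 L hL with rfl | hgood
    · refine ⟨S, hS, (SumInv.add_left (leftInv_log hβ β.1) hsum).congr fun g => ?_⟩
      simp only [List.map_cons, List.sum_cons]
      ring
    · refine ⟨L :: S, ?_, _, _, leftInv_log hβ β.1, hsum, fun g => ?_⟩
      · intro L' hL'
        rcases List.mem_cons.1 hL' with rfl | hL'
        · exact hgood
        · exact hS L' hL'
      · simp only [List.map_cons, List.sum_cons]
        ring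

/-- **Balance**, from a relation between the slopes. -/
theorem balanced_log (hP : NoRel ι α) {L₀ : IntermediateField ℚ Qb} (hL₀ : IsStable L₀)
    {n : ℕ} (hlarge : LargeOrbits E L₀ n) {𝓛 : Set (IntermediateField ℚ Qb)}
    (h𝓛 : ∀ L ∈ 𝓛, L = L₀ ∨ (IsStable L ∧ IsConjOver E L))
    {N : (E →+* Qb) → ℕ} (hN : ∑ σ, N σ ≤ n) (C : ℝ) (l : List (ℝ × Qb))
    (hl : ∀ β ∈ l, ∃ L ∈ 𝓛, SlopeRoot ι L β.2)
    (hlog : ∀ g : GQ, RR ι α (TH121.KT.odd N) g = C +
      (l.map fun β => β.1 * Real.log ‖ι (g β.2)‖).sum) (σ : E →+* Qb) : N σ = N (cj σ) := by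
  obtain ⟨S, hS, hsum⟩ := sumInv_list2 (E := E) h𝓛 C l hl
  refine balanced_of_inv hlarge hN ?_ σ
  exact inv_of_sum hP hL₀ S hS _ (fun σ => odd_cj N σ) (hsum.congr hlog)

end one

section fam

variable {r : ℕ} {E : Fin r → Type} [∀ i, Field (E i)] [∀ i, NumberField (E i)]
  [∀ i, IsCMField (E i)] {p : ℕ} [Fact p.Prime] {ι : Qb →+* PadicAlgCl p} {α : ∀ i, E i}

/-- The conditions on the fields: the slopes of the conjugates of `α i` are determined by the
field `S i`, and all the fields in `𝓛` and the fields `S j`, `j > i`, are equal to `L₀ i` or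
stable, and all embeddings of `E i` are conjugate to their complex conjugates over them. -/
structure FamCond (ι : Qb →+* PadicAlgCl p) (α : ∀ i, E i) (n : Fin r → ℕ)
    (𝓛 : Set (IntermediateField ℚ Qb)) (S L₀ : Fin r → IntermediateField ℚ Qb) : Prop where
  rel : ∀ i, NoRel ι (α i)
  slope : ∀ i (σ : E i →+* Qb), SlopeRoot ι (S i) (σ (α i))
  stable : ∀ i, IsStable (L₀ i)
  large : ∀ i, LargeOrbits (E i) (L₀ i) (n i)
  fields : ∀ i, ∀ L ∈ 𝓛, L = L₀ i ∨ (IsStable L ∧ IsConjOver (E i) L)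
  pair : ∀ i j, i < j → S j = L₀ i ∨ (IsStable (S j) ∧ IsConjOver (E i) (S j))

variable {n : Fin r → ℕ} {𝓛 : Set (IntermediateField ℚ Qb)} {S L₀ : Fin r → IntermediateField ℚ Qb}

lemma log_list (g : GQ) (l : List Qb) (hl0 : l.prod ≠ 0) :
    Real.log ‖ι (g l.prod)‖ = (l.map fun β => Real.log ‖ι (g β)‖).sum := by
  induction l with
  | nil => simp
  | cons β l ih =>
    rw [List.prod_cons] at hl0 ⊢
    have hβ : β ≠ 0 := left_ne_zero_of_mul hl0
    have hl' : l.prod ≠ 0 := right_ne_zero_of_mul hl0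
    rw [map_mul, map_mul, norm_mul, Real.log_mul, List.map_cons, List.sum_cons, ih hl']
    · rw [norm_ne_zero_iff, ne_eq, map_eq_zero, map_eq_zero]
      exact hβ
    · rw [norm_ne_zero_iff, ne_eq, map_eq_zero, map_eq_zero]
      exact hl'

lemma sum_flatMap' {A : Type*} (l : List A) (f : A → List ℝ) :
    (l.flatMap f).sum = (l.map fun a => (f a).sum).sum := by
  induction l with
  | nil => rfl
  | cons a l ih => rw [List.flatMap_cons, List.sum_append, ih, List.map_cons, List.sum_cons]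

/-- **The relations between the conjugates of several numbers are trivial.** -/
theorem balanced_fam (H : FamCond ι α n 𝓛 S L₀) {N : ∀ i, (E i →+* Qb) → ℕ}
    (hN : ∀ i, ∑ σ, N i σ ≤ n i) {w : Fin r → ℕ} (hw : ∀ i, 0 < w i) {W : ℕ} {l : List Qb}
    (hl : ∀ β ∈ l, ∃ L ∈ 𝓛, SlopeRoot ι L β) {x₀ : ℚ}
    (hrel : (∏ i, ∏ σ : E i →+* Qb, (σ (α i)) ^ (w i * N i σ)) * l.prod ^ W = (x₀ : Qb))
    (hl0 : l.prod ≠ 0) (i : Fin r) (σ : E i →+* Qb) : N i σ = N i (cj σ) := by
  classical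
  have hsum : ∀ g : GQ, ∑ i, (w i : ℝ) * FF ι (α i) (N i) g +
      W * (l.map fun β => Real.log ‖ι (g β)‖).sum = Real.log ‖ι (x₀ : Qb)‖ := by
    intro g
    have h1 := congrArg (fun z => Real.log ‖ι (g z)‖) hrel
    simp only [map_mul, map_pow, map_prod, norm_mul, norm_pow, norm_prod, map_ratCast] at h1
    have hne : ‖ι (g l.prod)‖ ≠ 0 := by
      rw [norm_ne_zero_iff, ne_eq, map_eq_zero, map_eq_zero]
      exact hl0
    have hne1 : ∀ i (σ : E i →+* Qb), ‖ι (g (σ (α i)))‖ ^ (w i * N i σ) ≠ 0 := fun i σ =>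
      pow_ne_zero _ (norm_pos' (H.rel i).unitary (act g σ)).ne'
    rw [Real.log_mul, Real.log_prod, Real.log_pow, log_list g l hl0] at h1
    rotate_left
    · intro i _
      exact Finset.prod_ne_zero_iff.2 fun σ _ => hne1 i σ
    · exact Finset.prod_ne_zero_iff.2 fun i _ => Finset.prod_ne_zero_iff.2 fun σ _ => hne1 i σ
    · exact pow_ne_zero _ hne
    rw [map_ratCast, ← h1]
    congr 1
    refine Finset.sum_congr rfl fun i _ => ?_
    rw [Real.log_prod]
    · unfold FF
      rw [Finset.mul_sum]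
      refine Finset.sum_congr rfl fun σ _ => ?_
      rw [Real.log_pow]
      push_cast
      ring
    · intro σ _
      exact hne1 i σ
  have key : ∀ i, ∀ σ, TH121.KT.odd (N i) σ = 0 := by
    intro i
    induction i using WellFoundedLT.induction with
    | _ i ih =>
    have hwi : (w i : ℝ) ≠ 0 := Nat.cast_ne_zero.2 (hw i).ne'
    let l₁ : List (ℝ × Qb) := ((Finset.univ.filter (fun j => i < j)).toList).flatMap fun j =>
      ((Finset.univ : Finset (E j →+* Qb)).toList.map fun σ =>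
        (-(2 / w i) * (w j * N j σ), σ (α j)))
    let l₂ : List (ℝ × Qb) := l.map fun β => (-(2 / w i) * W, β)
    have h𝓛 : ∀ L ∈ 𝓛 ∪ {L | ∃ j, i < j ∧ L = S j},
        L = L₀ i ∨ (IsStable L ∧ IsConjOver (E i) L) := by
      rintro L (hL | ⟨j, hj, rfl⟩)
      · exact H.fields i L hL
      · exact H.pair i j hj
    have hl12 : ∀ β ∈ l₁ ++ l₂, ∃ L ∈ 𝓛 ∪ {L | ∃ j, i < j ∧ L = S j}, SlopeRoot ι L β.2 := by
      intro β hβ
      rcases List.mem_append.1 hβ with hβ | hβ
      · obtain ⟨j, hj, hβ⟩ := List.mem_flatMap.1 hβ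
        obtain ⟨σ, -, rfl⟩ := List.mem_map.1 hβ
        rw [Finset.mem_toList, Finset.mem_filter] at hj
        exact ⟨S j, Or.inr ⟨j, hj.2, rfl⟩, H.slope j σ⟩
      · obtain ⟨β', hβ', rfl⟩ := List.mem_map.1 hβ
        obtain ⟨L, hL, h1⟩ := hl β' hβ'
        exact ⟨L, Or.inl hL, h1⟩
    have hbal := balanced_log (H.rel i) (H.stable i) (H.large i) h𝓛 (hN i)
      (2 / w i * Real.log ‖ι (x₀ : Qb)‖) (l₁ ++ l₂) hl12 ?_
    · intro σ
      have := hbal σ
      unfold TH121.KT.odd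
      omega
    intro g
    have h1 : RR ι (α i) (TH121.KT.odd (N i)) g = 2 * FF ι (α i) (N i) g :=
      two_FF (H.rel i).unitary (N i) g
    have h2 : (l₁.map fun β => β.1 * Real.log ‖ι (g β.2)‖).sum =
        ∑ j ∈ Finset.univ.filter (fun j => i < j), -(2 / (w i : ℝ)) * (w j * FF ι (α j) (N j) g) := by
      simp only [l₁, List.map_flatMap, sum_flatMap', List.map_map]
      rw [Finset.sum_map_toList]
      refine Finset.sum_congr rfl fun j _ => ?_
      rw [Finset.sum_map_toList]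
      unfold FF
      rw [Finset.mul_sum, Finset.mul_sum]
      refine Finset.sum_congr rfl fun σ _ => ?_
      simp only [Function.comp]
      ring
    have h3 : (l₂.map fun β => β.1 * Real.log ‖ι (g β.2)‖).sum =
        -(2 / (w i : ℝ)) * (W * (l.map fun β => Real.log ‖ι (g β)‖).sum) := by
      simp only [l₂, List.map_map]
      rw [← mul_assoc, ← List.sum_map_mul_left]
      rfl
    have h4 : ∑ j, (w j : ℝ) * FF ι (α j) (N j) g = (w i : ℝ) * FF ι (α i) (N i) g +
        ∑ j ∈ Finset.univ.filter (fun j => i < j), (w j : ℝ) * FF ι (α j) (N j) g := by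
      rw [← Finset.add_sum_erase Finset.univ _ (Finset.mem_univ i)]
      congr 1
      symm
      refine Finset.sum_subset ?_ ?_
      · intro j hj
        rw [Finset.mem_filter] at hj
        exact Finset.mem_erase.2 ⟨hj.2.ne', Finset.mem_univ _⟩
      · intro j hj hj'
        rw [Finset.mem_filter, not_and] at hj'
        have hji : j < i := lt_of_le_of_ne (not_lt.1 (hj' (Finset.mem_univ _)))
          (Finset.mem_erase.1 hj).1
        rw [FF_zero (H.rel j).unitary (ih j hji), mul_zero]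
    have h5 := hsum g
    rw [h4] at h5
    rw [h1, List.map_append, List.sum_append, h2, h3, ← Finset.mul_sum, ← h5]
    field_simp
    ring
  have h1 := key i σ
  unfold TH121.KT.odd at h1
  omega

/-- **Balance**, in an algebraically closed field. -/
theorem balanced_fam_closed (H : FamCond ι α n 𝓛 S L₀) {Ω : Type*} [Field Ω] [CharZero Ω]
    [IsAlgClosed Ω] {N : ∀ i, (E i →+* Ω) → ℕ} (hN : ∀ i, ∑ σ, N i σ ≤ n i) {w : Fin r → ℕ}
    (hw : ∀ i, 0 < w i) {W : ℕ} {ν : Ω} (hν : IsSlopeProduct ι 𝓛 ν) (hν0 : ν ≠ 0) {x₀ : ℚ}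
    (hrel : (∏ i, ∏ σ : E i →+* Ω, (σ (α i)) ^ (w i * N i σ)) * ν ^ W = (x₀ : Ω))
    (i : Fin r) (σ : E i →+* Ω) : N i σ = N i (cj σ) := by
  classical
  let τ : Qb →+* Ω := (IsAlgClosed.lift : Qb →ₐ[ℚ] Ω).toRingHom
  obtain ⟨t, l, ht, hνl, hl⟩ := hν
  obtain ⟨l', hl', hl'L⟩ := exists_list τ l hl
  have hbij : ∀ i, Function.Bijective (fun ρ : E i →+* Qb => τ.comp ρ) := by
    intro i
    constructor
    · intro ρ ρ' h
      ext x
      exact τ.injective (RingHom.congr_fun h x)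
    · intro σ
      obtain ⟨ρ, hρ⟩ := exists_lift τ σ
      exact ⟨ρ, hρ⟩
  let N' : ∀ i, (E i →+* Qb) → ℕ := fun i ρ => N i (τ.comp ρ)
  have hprod : ∏ i, ∏ σ : E i →+* Ω, (σ (α i)) ^ (t * w i * N i σ) =
      τ (∏ i, ∏ ρ : E i →+* Qb, (ρ (α i)) ^ (t * w i * N' i ρ)) := by
    rw [map_prod]
    refine Finset.prod_congr rfl fun i _ => ?_
    rw [map_prod]
    refine (Fintype.prod_equiv (Equiv.ofBijective _ (hbij i)) _ _ fun ρ => ?_).symm
    rw [map_pow]
    rfl
  have hN' : ∀ i, ∑ ρ : E i →+* Qb, N' i ρ ≤ n i := by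
    intro i
    refine le_trans (le_of_eq ?_) (hN i)
    exact Fintype.sum_equiv (Equiv.ofBijective _ (hbij i)) _ _ fun ρ => rfl
  have hlprod : l.prod = τ l'.prod := by rw [← hl', map_list_prod]
  have hl0 : l'.prod ≠ 0 := by
    intro h
    rw [h, map_zero, ← hνl] at hlprod
    exact pow_ne_zero _ hν0 hlprod
  have hbal := balanced_fam H (N := N') (w := fun i => t * w i) (W := W) (l := l')
    (x₀ := x₀ ^ t) hN' (fun i => Nat.mul_pos ht (hw i)) hl'L ?_ hl0
  · obtain ⟨ρ, rfl⟩ := (hbij i).2 σ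
    exact hbal i ρ
  · apply τ.injective
    rw [map_mul, ← hprod, map_pow, ← hlprod, ← hνl, map_ratCast, Rat.cast_pow, ← hrel, mul_pow,
      ← Finset.prod_pow, ← pow_mul, ← pow_mul, mul_comm t W]
    congr 1
    refine Finset.prod_congr rfl fun i _ => ?_
    rw [← Finset.prod_pow]
    refine Finset.prod_congr rfl fun σ _ => ?_
    rw [← pow_mul]
    congr 1
    ring

end fam

end Pool.Agent.Y103.Sh
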