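import Pool.Agent.Y103.Sh.Defs
import Pool.Agent.Y103.Sh.Fam
import Pool.Agent.Y103.Hk.NormF
import Pool.Agent.Y138.KH.Rel

/-!
# The arithmetic conditions
-/

set_option autoImplicit false
set_option linter.unusedSectionVars false

open NumberField Polynomial Module

namespace Pool.Agent.Y103.Sh

open Pool.Agent.TH121.KT Pool.Agent.W517.K3 Pool.Agent.Y138.KC Pool.Agent.Y103.Hk

section one

variable {p : ℕ} [Fact p.Prime] {ι : Qb →+* PadicAlgCl p} {E : Type} [Field E] [NumberField E]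
  [IsCMField E] {α : E}

/-- There are no relations if the Galois group contains the changes of sign. -/
theorem noRel_signs (hu : ∀ φ : E →+* ℂ, ‖φ α‖ = 1) (hne : ∃ σ : E →+* Qb, ‖ι (σ α)‖ ≠ 1)
    (hs : HasSignChanges E) : NoRel ι α := by
  classical
  refine ⟨hu, fun f hf hR σ => ?_⟩
  obtain ⟨τ, hτ⟩ := hne
  obtain ⟨g, hg⟩ := exists_act_eq σ τ
  obtain ⟨h, hh, hfix⟩ := hs σ
  have h1 := hR (g * h)
  have h2 := hR g
  have hcj : cj σ ≠ σ := Y138.KH.cj_ne_self σ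
  have hact : act h σ = cj σ := RingHom.ext hh
  have hact' : act h (cj σ) = σ := by rw [act_cj, hact, cj_cj]
  have h3 : RR ι α f (g * h) - RR ι α f g =
      ∑ ρ : E →+* Qb, (f ρ : ℝ) * (Real.log ‖ι ((act g (act h ρ)) α)‖ -
        Real.log ‖ι ((act g ρ) α)‖) := by
    unfold RR
    rw [← Finset.sum_sub_distrib]
    refine Finset.sum_congr rfl fun ρ _ => ?_
    rw [mul_sub]
    rfl
  rw [h1, h2, sub_self, ← Finset.sum_subset (Finset.subset_univ {σ, cj σ})] at h3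
  · rw [Finset.sum_pair (Ne.symm hcj), hact, hact', hf σ] at h3
    have h4 : Real.log ‖ι ((act g (cj σ)) α)‖ = - Real.log ‖ι ((act g σ) α)‖ := by
      rw [act_cj, cj_norm hu, Real.log_inv]
    rw [h4, hg] at h3
    push_cast at h3
    have h5 : Real.log ‖ι (τ α)‖ ≠ 0 := by
      refine Real.log_ne_zero_of_pos_of_ne_one (norm_pos' hu τ) hτ
    have h6 : (f σ : ℝ) * Real.log ‖ι (τ α)‖ = 0 := by linarith
    exact_mod_cast (mul_eq_zero.1 h6).resolve_right h5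
  · intro ρ _ hρ
    rw [Finset.mem_insert, Finset.mem_singleton, not_or] at hρ
    have h4 : act h ρ = ρ := RingHom.ext (hfix ρ hρ.1 hρ.2)
    rw [h4, sub_self, mul_zero]

theorem noRel_free (h : IsFreeNumber ι α) : NoRel ι α := by
  rcases h with ⟨a, d, h1, h2, h3⟩ | ⟨h1, h2, h3⟩
  · exact noRel_good h1 h2 h3
  · exact noRel_signs h1 h2 h3

lemma mem_closure (σ : E →+* Qb) (x : E) : σ x ∈ galoisClosure E := by
  have h1 : σ.toRatAlgHom.fieldRange ≤ galoisClosure E :=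
    le_iSup (fun σ : E →ₐ[ℚ] Qb => σ.fieldRange) σ.toRatAlgHom
  exact h1 ⟨x, rfl⟩

theorem stable_closure (E : Type) [Field E] [NumberField E] : IsStable (galoisClosure E) := by
  intro g x hx
  have h1 : (galoisClosure E).map (g : Qb →ₐ[ℚ] Qb) ≤ galoisClosure E := by
    unfold galoisClosure
    rw [IntermediateField.map_iSup]
    refine iSup_le fun σ => ?_
    rintro _ ⟨y, ⟨z, rfl⟩, rfl⟩
    have h2 : ((g : Qb →ₐ[ℚ] Qb).comp σ).fieldRange ≤ ⨆ σ : E →ₐ[ℚ] Qb, σ.fieldRange :=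
      le_iSup (fun σ : E →ₐ[ℚ] Qb => σ.fieldRange) ((g : Qb →ₐ[ℚ] Qb).comp σ)
    exact h2 ⟨z, rfl⟩
  exact h1 ⟨x, hx, rfl⟩

theorem slope_closure (σ : E →+* Qb) : SlopeRoot ι (galoisClosure E) (σ α) := by
  refine ⟨minpoly ℚ α, minpoly.ne_zero (Algebra.IsIntegral.isIntegral α), ?_, ?_⟩
  · intro h hh γ hγ
    have h1 : γ ∈ (minpoly ℚ α).rootSet Qb :=
      (mem_rootSet.2 ⟨minpoly.ne_zero (Algebra.IsIntegral.isIntegral α), hγ⟩)
    rw [← Algebra.IsAlgebraic.range_eval_eq_rootSet_minpoly Qb α] at h1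
    obtain ⟨τ, rfl⟩ := h1
    have h2 : τ α ∈ galoisClosure E := mem_closure (τ : E →+* Qb) α
    change ‖ι (h (τ α))‖ = ‖ι (τ α)‖
    rw [hh _ h2]
  · have h1 : aeval (σ.toRatAlgHom α) (minpoly ℚ α) = 0 := by
      rw [Polynomial.aeval_algHom_apply, minpoly.aeval, map_zero]
    exact h1

lemma allowed_conj {L₀ L : IntermediateField ℚ Qb} (h : IsAllowed E L₀ L) :
    L = L₀ ∨ (IsStable L ∧ IsConjOver E L) :=
  h.imp_right fun h' => ⟨h'.1, isConjOver_of_real h'.1 h'.2⟩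

end one

variable {r : ℕ} {E : Fin r → Type} [∀ i, Field (E i)] [∀ i, NumberField (E i)]
  [∀ i, IsCMField (E i)] {p : ℕ} [Fact p.Prime] {ι : Qb →+* PadicAlgCl p} {α : ∀ i, E i}
  {n : Fin r → ℕ} {𝓛 : Set (IntermediateField ℚ Qb)} {L₀ : Fin r → IntermediateField ℚ Qb}

/-- **The conditions on a family.** -/
theorem famCond_of (hα : ∀ i, IsFreeNumber ι (α i))
    (hL₀ : ∀ i, IsStable (L₀ i) ∧ SmallIntersection (E i) (L₀ i) (n i))
    (h𝓛 : ∀ i, ∀ L ∈ 𝓛, IsAllowed (E i) (L₀ i) L)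
    (hE : ∀ i j, i < j → IsAllowed (E i) (L₀ i) (galoisClosure (E j))) :
    FamCond ι α n 𝓛 (fun i => galoisClosure (E i)) L₀ where
  rel i := noRel_free (hα i)
  slope _ σ := slope_closure σ
  stable i := (hL₀ i).1
  large i := largeOrbits_of (hL₀ i).1 (hL₀ i).2
  fields i L hL := allowed_conj (h𝓛 i L hL)
  pair i j hij := allowed_conj (hE i j hij)

end Pool.Agent.Y103.Sh
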