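import Pool.Agent.Y103.Hk.Defs2
import Pool.Agent.Y103.Hk.Defs3

/-!
# Numbers without relations between their conjugates: definitions
-/

set_option autoImplicit false

open NumberField

namespace Pool.Agent.Y103.Sh

open Pool.Agent.W517.K3 Pool.Agent.Y138.KC Pool.Agent.Y103.Hk

/-- The field generated by all images of `E` in the algebraic closure of `ℚ`. -/
noncomputable def galoisClosure (E : Type) [Field E] [NumberField E] :
    IntermediateField ℚ (AlgebraicClosure ℚ) :=
  ⨆ σ : E →ₐ[ℚ] AlgebraicClosure ℚ, σ.fieldRange

/-- The Galois group contains all changes of sign: for every embedding `σ` of `E` there is an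
automorphism which exchanges `σ` and its complex conjugate, and fixes all the other embeddings. -/
def HasSignChanges (E : Type) [Field E] [NumberField E] [IsCMField E] : Prop :=
  ∀ σ : E →+* AlgebraicClosure ℚ, ∃ g : AlgebraicClosure ℚ ≃ₐ[ℚ] AlgebraicClosure ℚ,
    (∀ x, g (σ x) = σ (IsCMField.complexConj E x)) ∧
    ∀ τ : E →+* AlgebraicClosure ℚ, τ ≠ σ →
      τ ≠ σ.comp (IsCMField.complexConj E : E →+* E) → ∀ x, g (τ x) = τ x

/-- Either `α` is a Frobenius number of K3 type of degree `2 d` which satisfies the numerical
condition `IsGoodNumber`; or all complex absolute values of `α` are one, some conjugate is not a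
unit at the place `ι`, and the Galois group of `E` contains all changes of sign. -/
def IsFreeNumber {p : ℕ} [Fact p.Prime] (ι : AlgebraicClosure ℚ →+* PadicAlgCl p)
    {E : Type} [Field E] [NumberField E] [IsCMField E] (α : E) : Prop :=
  (∃ a d, IsK3Frobenius p a α ∧ Module.finrank ℚ E = 2 * d ∧ IsGoodNumber p α d) ∨
    ((∀ φ : E →+* ℂ, ‖φ α‖ = 1) ∧ (∃ σ : E →+* AlgebraicClosure ℚ, ‖ι (σ α)‖ ≠ 1) ∧
      HasSignChanges E)

/-- The field `L` is equal to `L₀`, or it is mapped to itself by all automorphisms and its
intersections with the images of `E` are totally real. -/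
def IsAllowed (E : Type) [Field E] [NumberField E] [IsCMField E]
    (L₀ L : IntermediateField ℚ (AlgebraicClosure ℚ)) : Prop :=
  L = L₀ ∨ (IsStable L ∧ RealIntersection E L)

/-- The number of the factors `a` with `idx a = i`. -/
def copies {r n : ℕ} (idx : Fin (n + 1) → Fin r) (i : Fin r) : ℕ :=
  (Finset.univ.filter fun a => idx a = i).card

end Pool.Agent.Y103.Sh
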