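import Pool.Agent.Y103.Sh.Fam
import Pool.Agent.Y138.KH.Rel

/-!
# The relations between the eigenvalues on a product are generated by pairs
-/

set_option autoImplicit false
set_option linter.unusedSectionVars false

open NumberField

namespace Pool.Agent.Y103.Sh

open Pool.Agent.W552 Pool.Agent.TH121.KT Pool.Agent.W290.MF Pool.Agent.Y138.KH

universe v

variable {r : ℕ} {E : Fin r → Type} [∀ i, Field (E i)] [∀ i, NumberField (E i)]
  [∀ i, IsCMField (E i)] {α : ∀ i, E i}

/-- the eigenvalues of the letters -/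
def IsLetterNum {K : Type v} [Field K] {E : Type} [Field E] (q D e m : ℕ) (α : E)
    (x : ℕ × K) : Prop :=
  x.1 = D ∧ ∃ (σ : E →+* K) (N : ℕ), 0 < N ∧
    x.2 ^ (2 * e * N) = (q : K) ^ (D * (e * N)) * σ α ^ (2 * N * m)

/-- **The relations are generated by pairs.** -/
theorem pairGen {K : Type v} [Field K] [CharZero K] [IsAlgClosed K] {n : Fin r → ℕ}
    (hu : ∀ i, ∀ φ : E i →+* ℂ, ‖φ (α i)‖ = 1)
    (hbal : ∀ (N : ∀ i, (E i →+* K) → ℕ) (w : Fin r → ℕ), (∀ i, 0 < w i) →
      (∀ i, ∑ σ, N i σ ≤ n i) → ∏ i, ∏ σ : E i →+* K, (σ (α i)) ^ (w i * N i σ) = 1 →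
      ∀ i σ, N i σ = N i (cj σ))
    {q : ℕ} (hq : (q : K) ≠ 0) {D e m : Fin r → ℕ} (he : ∀ i, 0 < e i) (hm : ∀ i, 0 < m i)
    {Λ : Type} [DecidableEq Λ] (idx : Λ → Fin r) (y : Λ → ℕ × K) :
    ∀ (c : ℕ) (A : Finset Λ), A.card = c → (∀ i, (A.filter fun a => idx a = i).card ≤ n i) →
      (∀ a ∈ A, IsTateRel q {y a} ∨ IsLetterNum q (D (idx a)) (e (idx a)) (m (idx a))
        (α (idx a)) (y a)) → IsTateRel q (A.val.map y) → PairGenerated q (A.val.map y) := by
  classical
  intro c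
  induction c using Nat.strong_induction_on with
  | _ c ih =>
  intro A hAc hAn hA hrel
  by_cases h1 : ∃ a ∈ A, IsTateRel q {y a}
  · obtain ⟨a, ha, har⟩ := h1
    have hAa : A.val.map y = y a ::ₘ (A.erase a).val.map y := by
      conv_lhs => rw [← Finset.insert_erase ha]
      rw [Finset.insert_val_of_notMem (Finset.notMem_erase a A), Multiset.map_cons]
    have hcard := Finset.card_erase_lt_of_mem ha
    rw [hAa]
    refine PairGenerated.single har (ih (A.erase a).card (by omega) _ rfl (fun i => ?_)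
      (fun b hb => hA b (Finset.mem_of_mem_erase hb)) ?_)
    · exact (Finset.card_le_card (Finset.filter_subset_filter _ (Finset.erase_subset a A))).trans
        (hAn i)
    · refine tateRel_cancel (s := {y a}) hq ?_ har
      rwa [Multiset.singleton_add, ← hAa]
  have h2 : ∀ a ∈ A, IsLetterNum q (D (idx a)) (e (idx a)) (m (idx a)) (α (idx a)) (y a) :=
    fun a ha => (hA a ha).resolve_left fun h => h1 ⟨a, ha, h⟩
  rcases A.eq_empty_or_nonempty with rfl | ⟨a₀, ha₀⟩
  · exact PairGenerated.zero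
  have h3 : ∀ a ∈ A, ∃ (σ : E (idx a) →+* K) (N : ℕ), 0 < N ∧
    (y a).2 ^ (2 * e (idx a) * N) = (q : K) ^ (D (idx a) * (e (idx a) * N)) *
      σ (α (idx a)) ^ (2 * N * m (idx a)) := fun a ha => (h2 a ha).2
  have hne : ∀ i, Nonempty (E i →+* K) := fun i => ⟨(IsAlgClosed.lift : E i →ₐ[ℚ] K).toRingHom⟩
  choose! σ N hN hσ using h3
  -- a common exponent
  let B : ℕ := (∏ i, e i) * ∏ a ∈ A, N a
  have hB : 0 < B := Nat.mul_pos (Finset.prod_pos fun i _ => he i)
    (Finset.prod_pos fun a ha => hN a ha)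
  have hBe : ∀ i, e i * (B / e i) = B := fun i => Nat.mul_div_cancel'
    ((Finset.dvd_prod_of_mem e (Finset.mem_univ i)).trans (Dvd.intro _ rfl))
  have hBe0 : ∀ i, 0 < B / e i := by
    intro i
    rcases Nat.eq_zero_or_pos (B / e i) with h | h
    · have := hBe i
      rw [h, mul_zero] at this
      omega
    · exact h
  have hBN : ∀ a ∈ A, ∃ b, B / e (idx a) = N a * b := by
    intro a ha
    obtain ⟨b, hb⟩ := Finset.dvd_prod_of_mem N ha
    obtain ⟨b', hb'⟩ := Finset.dvd_prod_of_mem e (Finset.mem_univ (idx a))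
    refine ⟨b' * b, ?_⟩
    have h4 : e (idx a) * (B / e (idx a)) = e (idx a) * (N a * (b' * b)) := by
      rw [hBe]
      change (∏ i, e i) * ∏ a ∈ A, N a = _
      rw [hb, hb']
      ring
    exact Nat.eq_of_mul_eq_mul_left (he _) h4
  let lab : Λ → Σ i, (E i →+* K) := fun a => ⟨idx a, σ a⟩
  have hF : ∀ a ∈ A, (y a).1 = D (lab a).1 ∧ (y a).2 ^ (2 * B) = (q : K) ^ (D (lab a).1 * B) *
      ((lab a).2 (α (lab a).1)) ^ (2 * m (lab a).1 * (B / e (lab a).1)) := by
    intro a ha
    refine ⟨(h2 a ha).1, ?_⟩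
    obtain ⟨b, hb⟩ := hBN a ha
    have h4 := congrArg (fun z => z ^ b) (hσ a ha)
    simp only [mul_pow, ← pow_mul] at h4
    change _ = (q : K) ^ (D (idx a) * B) * (σ a (α (idx a))) ^ (2 * m (idx a) * (B / e (idx a)))
    have h5 : B = e (idx a) * (N a * b) := by rw [← hb, hBe]
    rw [hb, h5]
    convert h4 using 2 <;> ring_nf
  obtain ⟨j, hj, m', hm', hpr⟩ := hrel
  -- the relation between the conjugates
  let w : Fin r → ℕ := fun i => 2 * m i * (B / e i) * m'
  have hw : ∀ i, 0 < w i := fun i => Nat.mul_pos (Nat.mul_pos (Nat.mul_pos two_pos (hm i))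
    (hBe0 i)) hm'
  let cnt : ∀ i, (E i →+* K) → ℕ := fun i τ => (A.filter fun a => lab a = ⟨i, τ⟩).card
  have hcnt : ∀ i, ∑ τ, cnt i τ ≤ n i := by
    intro i
    refine le_trans (le_of_eq ?_) (hAn i)
    have h5 : ∀ a ∈ A.filter (fun a => idx a = i), lab a ∈ (Finset.univ : Finset (E i →+* K)).image
        (fun τ => (⟨i, τ⟩ : Σ i, (E i →+* K))) := by
      intro a ha
      rw [Finset.mem_filter] at ha
      rw [Finset.mem_image]
      obtain ⟨-, rfl⟩ := ha
      exact ⟨σ a, Finset.mem_univ _, rfl⟩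
    rw [Finset.card_eq_sum_card_fiberwise h5, Finset.sum_image]
    · refine Finset.sum_congr rfl fun τ _ => ?_
      change (A.filter fun a => lab a = ⟨i, τ⟩).card = _
      congr 1
      ext a
      rw [Finset.mem_filter, Finset.mem_filter, Finset.mem_filter]
      constructor
      · rintro ⟨h6, h7⟩
        exact ⟨⟨h6, congrArg Sigma.fst h7⟩, h7⟩
      · rintro ⟨⟨h6, -⟩, h7⟩
        exact ⟨h6, h7⟩
    · intro τ _ τ' _ h
      exact eq_of_heq (Sigma.mk.inj_iff.1 h).2
  have hprod : ∏ i, ∏ τ : E i →+* K, (τ (α i)) ^ (w i * cnt i τ) = 1 := by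
    have h5 : ∏ i, ∏ τ : E i →+* K, (τ (α i)) ^ (w i * cnt i τ) =
        ∏ a ∈ A, ((lab a).2 (α (lab a).1)) ^ (w (lab a).1) := by
      rw [← Finset.prod_fiberwise_of_maps_to (s := A) (t := Finset.univ) (g := lab)
        (fun a _ => Finset.mem_univ _), Fintype.prod_sigma]
      refine Finset.prod_congr rfl fun i _ => Finset.prod_congr rfl fun τ _ => ?_
      have h6 : ∏ a ∈ A.filter (fun a => lab a = ⟨i, τ⟩),
          ((lab a).2 (α (lab a).1)) ^ (w (lab a).1) =
          ∏ a ∈ A.filter (fun a => lab a = ⟨i, τ⟩), (τ (α i)) ^ (w i) := by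
        refine Finset.prod_congr rfl fun a ha => ?_
        rw [(Finset.mem_filter.1 ha).2]
      rw [h6, Finset.prod_const, ← pow_mul]
    rw [h5]
    have h6 : (((A.val.map y).map Prod.snd).prod ^ m') ^ (2 * B) =
        (q : K) ^ (m' * j * (2 * B)) := by
      rw [hpr, ← pow_mul]
    have h7 : ((A.val.map y).map Prod.snd).prod = ∏ a ∈ A, (y a).2 := by
      rw [Multiset.map_map]
      rfl
    have h8 : ((A.val.map y).map Prod.fst).sum = ∑ a ∈ A, (y a).1 := by
      rw [Multiset.map_map]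
      rfl
    rw [h8] at hj
    have h9 : (∏ a ∈ A, (y a).2) ^ (2 * B) = (q : K) ^ (2 * j * B) *
        ∏ a ∈ A, ((lab a).2 (α (lab a).1)) ^ (2 * m (lab a).1 * (B / e (lab a).1)) := by
      rw [← Finset.prod_pow, Finset.prod_congr rfl fun a ha => (hF a ha).2,
        Finset.prod_mul_distrib, ← hj, Finset.sum_mul, ← Finset.prod_pow_eq_pow_sum]
      congr 1
      refine Finset.prod_congr rfl fun a ha => ?_
      rw [(hF a ha).1]
    rw [h7, ← pow_mul, mul_comm m', pow_mul, h9, mul_pow, ← Finset.prod_pow, ← pow_mul] at h6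
    have h10 : (q : K) ^ (2 * j * B * m') = (q : K) ^ (m' * j * (2 * B)) := by
      congr 1
      ring
    rw [h10] at h6
    have h11 := mul_left_cancel₀ (pow_ne_zero _ hq) (h6.trans (mul_one _).symm)
    rw [← h11]
    refine Finset.prod_congr rfl fun a _ => ?_
    rw [← pow_mul]
  have hb := hbal cnt w hw hcnt hprod
  -- the partner
  have h6 : 0 < cnt (idx a₀) (cj (σ a₀)) := by
    rw [← hb (idx a₀) (σ a₀)]
    exact Finset.card_pos.2 ⟨a₀, Finset.mem_filter.2 ⟨ha₀, rfl⟩⟩
  obtain ⟨b, hb'⟩ := Finset.card_pos.1 h6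
  obtain ⟨hbA, hblab⟩ := Finset.mem_filter.1 hb'
  have hlab : lab b = bar (lab a₀) := hblab
  have hne : b ≠ a₀ := by
    rintro rfl
    have h7 : cj (lab b).2 = (lab b).2 := by
      have h8 := Sigma.mk.inj_iff.1 (show (⟨(lab b).1, (lab b).2⟩ : Σ i, (E i →+* K)) =
        ⟨(lab b).1, cj (lab b).2⟩ from hlab)
      exact (eq_of_heq h8.2).symm
    exact cj_ne_self _ h7
  have hA' : A.val.map y = y a₀ ::ₘ y b ::ₘ ((A.erase a₀).erase b).val.map y := by
    have hbe : b ∈ A.erase a₀ := Finset.mem_erase.2 ⟨hne, hbA⟩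
    conv_lhs => rw [← Finset.insert_erase ha₀]
    rw [Finset.insert_val_of_notMem (Finset.notMem_erase a₀ A), Multiset.map_cons]
    conv_lhs => rw [← Finset.insert_erase hbe]
    rw [Finset.insert_val_of_notMem (Finset.notMem_erase b _), Multiset.map_cons]
  have hpair : IsTateRel q ({y a₀, y b} : Multiset (ℕ × K)) := by
    refine ⟨D (lab a₀).1, ?_, 2 * B, Nat.mul_pos two_pos hB, ?_⟩
    · rw [Multiset.insert_eq_cons, Multiset.map_cons, Multiset.map_singleton,
        Multiset.sum_cons, Multiset.sum_singleton, (hF a₀ ha₀).1, (hF b hbA).1, hlab, two_mul]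
      rfl
    · rw [Multiset.insert_eq_cons, Multiset.map_cons, Multiset.map_singleton,
        Multiset.prod_cons, Multiset.prod_singleton, mul_pow, (hF a₀ ha₀).2, (hF b hbA).2, hlab]
      change _ * ((q : K) ^ (D (lab a₀).1 * B) * (cj (lab a₀).2 (α (lab a₀).1)) ^
        (2 * m (lab a₀).1 * (B / e (lab a₀).1))) = _
      rw [cj_val (hu _), inv_pow]
      have h9 : ((lab a₀).2 (α (lab a₀).1)) ^ (2 * m (lab a₀).1 * (B / e (lab a₀).1)) ≠ 0 :=
        pow_ne_zero _ (by
          rw [ne_eq, map_eq_zero]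
          exact alpha_ne (hu _))
      field_simp
      ring
  have hc1 := Finset.card_erase_lt_of_mem ha₀
  have hc2 := Finset.card_erase_lt_of_mem (show b ∈ A.erase a₀ from Finset.mem_erase.2 ⟨hne, hbA⟩)
  have hsub : (A.erase a₀).erase b ⊆ A := (Finset.erase_subset _ _).trans (Finset.erase_subset _ _)
  rw [hA']
  refine PairGenerated.pair hpair (ih ((A.erase a₀).erase b).card (by omega) _ rfl (fun i => ?_)
    (fun a ha => hA a (hsub ha)) ?_)
  · exact (Finset.card_le_card (Finset.filter_subset_filter _ hsub)).trans (hAn i)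
  · refine tateRel_cancel (s := {y a₀, y b}) hq ?_ hpair
    rw [Multiset.insert_eq_cons, Multiset.cons_add, Multiset.singleton_add, ← hA']
    exact ⟨j, hj, m', hm', hpr⟩

end Pool.Agent.Y103.Sh
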