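import Pool.Agent.Y103.Sh.Neat
import Pool.Agent.Y103.Sh.Pg

/-!
# The eigenvalues of the powers of the Frobenius endomorphisms
-/

set_option autoImplicit false

open CategoryTheory AlgebraicGeometry

universe u v w

namespace Pool.Agent.Y103.Sh

open Pool.Agent.H914 Pool.Agent.H914.VarClass Pool.Agent.H914.VarClass.Obj
  Pool.Agent.H914.WeilCohomology Pool.Agent.H281R3.HT Pool.Agent.W552 Pool.Agent.W534
  Pool.Agent.W458.RK Pool.Agent.W458.MF Pool.Agent.TH132.A Pool.Agent.W536.RR
  Pool.Agent.TH121.KT Pool.Agent.Y138.KC Pool.Agent.W290.MF Pool.Agent.Y138.KH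

variable {k : Type u} [Field k] {𝒱 : VarClass k} {ops : CycleOps 𝒱}
  {W : WeilCohomology.{u, v} ops} {p : ℕ} {Φ : FrobSystem W p} {X Y : 𝒱.Obj} {e : ℕ}
  {E : Type} [Field E] {α : E}

lemma end_pow_eig {K V : Type*} [Field K] [AddCommGroup V] [Module K V] {T : Module.End K V}
    {v : V} {β : K} (h : T v = β • v) (m : ℕ) : (T ^ m) v = β ^ m • v := by
  induction m with
  | zero => rw [pow_zero, pow_zero, one_smul]; rfl
  | succ m ih => rw [pow_succ', Module.End.mul_apply, ih, map_smul, h, smul_smul, pow_succ]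

/-- The eigenvalues on the cohomology. -/
theorem weight_iter [IsAlgClosed W.K] (hX : HasWeilNumber Φ X e α) {m : ℕ} (hm : 0 < m)
    {x : ℕ × W.K} (hx : IsWeight W (W534.iter (Φ.Fr X) m) x) :
    IsTateRel (p ^ (Φ.e X * m)) ({x} : Multiset (ℕ × W.K)) ∨
      Sh.IsLetterNum (p ^ (Φ.e X * m)) X.dim e m α x := by
  obtain ⟨d, β⟩ := x
  obtain ⟨y, hy, hy0, hyβ⟩ := hx
  simp only at hy hyβ
  have h1 : y ∈ Submodule.span W.K {v | v ∈ EigSet Φ X e α ∧
      (W.map (W534.iter (Φ.Fr X) m)).toLinearMap v = β • v} :=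
    W552.mem_span_eigen (fun v hv => by
      obtain ⟨β, hβ⟩ := eig_of_eigSet hv
      exact ⟨β ^ m, iter_eig hβ m⟩) (span_eigSet hX) hyβ
  by_cases hL : d = X.dim ∧ ∃ v : W.H X, v ≠ 0 ∧ (∃ σ, IsLetter Φ X e α σ v) ∧
      W.map (W534.iter (Φ.Fr X) m) v = β • v
  · right
    obtain ⟨hd, v, hv0, ⟨σ, hv, μ, N, hN, hμ, hrel⟩, hvβ⟩ := hL
    have h2 : μ ^ m = β := by
      rw [iter_eig hμ] at hvβ
      exact smul_left_injective W.K hv0 hvβ
    subst h2
    refine ⟨hd, σ, N, hN, ?_⟩
    change (μ ^ m) ^ (2 * e * N) = _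
    rw [← pow_mul, mul_comm m, pow_mul, hrel, mul_pow, Nat.cast_pow, ← pow_mul, ← pow_mul,
      ← pow_mul]
    congr 2
    ring
  · left
    have h2 : y ∈ algSpan W X := by
      rw [← proj_same (W.isInternal X) hy]
      have key : ∀ v ∈ Submodule.span W.K {v | v ∈ EigSet Φ X e α ∧
          (W.map (W534.iter (Φ.Fr X) m)).toLinearMap v = β • v},
          H914.proj (W.isInternal X) d v ∈ algSpan W X := by
        intro v hv
        induction hv using Submodule.span_induction with
        | mem v hv =>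
          obtain ⟨hv | ⟨σ, hv⟩, hvβ⟩ := hv
          · refine algSpan_induction (p := fun c => H914.proj (W.isInternal X) d c ∈
              algSpan W X) ?_ ?_ ?_ ?_ hv.1
            · rw [map_zero]; exact Submodule.zero_mem _
            · intro a b ha hb
              rw [map_add]; exact Submodule.add_mem _ ha hb
            · intro r a ha
              rw [map_smul]; exact Submodule.smul_mem _ _ ha
            · intro i z hz
              by_cases h : d = 2 * i
              · subst h
                rw [proj_same _ (W.cl_mem hz)]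
                exact cl_mem_algSpan hz
              · rw [proj_ne _ (W.cl_mem hz) (by omega)]
                exact Submodule.zero_mem _
          · by_cases hv0 : v = 0
            · rw [hv0, map_zero]
              exact Submodule.zero_mem _
            · have h3 : d ≠ X.dim := fun h => hL ⟨h, v, hv0, ⟨σ, hv⟩, hvβ⟩
              rw [proj_ne _ hv.1 (by omega)]
              exact Submodule.zero_mem _
        | zero => rw [map_zero]; exact Submodule.zero_mem _
        | add x y _ _ hx hy => rw [map_add]; exact Submodule.add_mem _ hx hy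
        | smul t x _ hx => rw [map_smul]; exact Submodule.smul_mem _ _ hx
      exact key y h1
    obtain ⟨j, rfl⟩ := even_of_alg h2 hy hy0
    have h3 := spanCycles_of_alg h2 hy
    obtain ⟨r, hr, h4⟩ := exists_span_eig Φ X j
    have h5 : (frob Φ X r ^ m) y = ((card Φ X r : W.K) ^ j) ^ m • y :=
      end_pow_eig (h4 y h3) m
    have h6 : (frob Φ X r ^ m) y = β ^ r • y := by
      have h7 : frob Φ X r ^ m = (W.map (W534.iter (Φ.Fr X) m)).toLinearMap ^ r := by
        have h8 : frob Φ X r = (W.map (Φ.Fr X)).toLinearMap ^ r := frob_pow_eq' _ _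
        have h9 : (W.map (W534.iter (Φ.Fr X) m)).toLinearMap = (W.map (Φ.Fr X)).toLinearMap ^ m :=
          frob_pow_eq' _ _
        rw [h8, h9, ← pow_mul, ← pow_mul, mul_comm]
      rw [h7]
      exact end_pow_eig hyβ r
    rw [h5] at h6
    have h7 := smul_left_injective W.K hy0 h6
    refine ⟨j, ?_, r, hr, ?_⟩
    · simp
    · rw [Multiset.map_singleton, Multiset.prod_singleton]
      change β ^ r = _
      rw [← h7, card_pow, Nat.cast_pow, ← pow_mul, ← pow_mul]
      congr 1
      ring

/-- The Tate conjecture for `X × Y` and the product of powers of the Frobenius endomorphisms. -/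
theorem tate_pair2 {P Q : Polarized 𝒱} {m m' M : ℕ} (hM : 0 < M) (hm : Φ.e P.X * m = M)
    (hm' : Φ.e Q.X * m' = M) (hT : ∀ c, TateIn Φ (P.X.prod Q.X) c) :
    TateClassesAlgebraic W (P.X.prod Q.X)
      (pairMap (W534.iter (Φ.Fr P.X) m) (W534.iter (Φ.Fr Q.X) m')) (p ^ M) := by
  obtain ⟨A, r, hA, hr, he, h⟩ := nest_level Φ ops hM 1
    (Fin.cons (α := fun _ => Polarized 𝒱) P (fun _ => Q)) (Fin.cons m (fun _ => m')) (by
      intro a
      refine Fin.cases ?_ (fun i => ?_) a
      · simpa [Fin.cons_zero] using hm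
      · simpa [Fin.cons_succ] using hm')
  intro j c hc hcm
  obtain ⟨s, hs, hcm⟩ := hcm
  have h1 : IsTate Φ (P.X.prod Q.X) j c := by
    refine ⟨hc, A * s, Nat.mul_pos hA hs, ?_⟩
    have h2 : (⇑(W.map (W534.iter (Φ.Fr (P.X.prod Q.X)) A)) :
        W.H (P.X.prod Q.X) → W.H (P.X.prod Q.X)) =
        W.map (W534.iter (pairMap (W534.iter (Φ.Fr P.X) m) (W534.iter (Φ.Fr Q.X) m')) r) :=
      funext h
    rw [W534.map_iter_mul, h2, ← W534.map_iter_mul, mul_comm r s, W534.map_iter_mul]
    have h3 : W.map (W534.iter (pairMap (W534.iter (Φ.Fr P.X) m) (W534.iter (Φ.Fr Q.X) m')) s) c =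
        ((p ^ M : ℕ) : W.K) ^ (s * j) • c := by
      rw [W534.map_iter]
      exact hcm
    rw [W534.iterate_eig (fun a x => map_smul _ a x) h3 r, Nat.cast_pow, ← pow_mul, ← pow_mul]
    congr 2
    have he' : A * Φ.e (P.X.prod Q.X) = r * M := he
    calc M * (s * j * r) = r * M * (s * j) := by ring
      _ = A * Φ.e (P.X.prod Q.X) * (s * j) := by rw [he']
      _ = Φ.e (P.X.prod Q.X) * (A * s) * j := by ring
  exact W397.MF.spanCycles_le_algSpan _ (hT j c h1)

end Pool.Agent.Y103.Sh
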