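import Pool.Agent.Y103.Sh.Main
import Pool.Agent.Y103.Sh.Arith

/-!
# The conjecture of Hodge type for products of varieties of K3 type: conclusion
-/

set_option autoImplicit false

open CategoryTheory AlgebraicGeometry NumberField

universe u v w

namespace Pool.Agent.Y103.Sh

open Pool.Agent.H914 Pool.Agent.H914.VarClass Pool.Agent.H914.VarClass.Obj
  Pool.Agent.H914.WeilCohomology Pool.Agent.H281R3.HT Pool.Agent.W552 Pool.Agent.W534
  Pool.Agent.W458.RK Pool.Agent.W458.MF Pool.Agent.TH132.A Pool.Agent.W536.RR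
  Pool.Agent.TH121.KT Pool.Agent.Y138.KC Pool.Agent.W290.MF Pool.Agent.Y138.KH
  Pool.Agent.Y103.Hk

variable {k : Type u} [Field k] {𝒱 : VarClass k} {ops : CycleOps 𝒱}
  {W : WeilCohomology.{u, v} ops} {p : ℕ} [Fact p.Prime] {Φ : FrobSystem W p}
  {ι : Qb →+* PadicAlgCl p}
  {r : ℕ} {X : Fin r → 𝒱.Obj} {e : Fin r → ℕ} {E : Fin r → Type} [∀ i, Field (E i)]
  [∀ i, NumberField (E i)] [∀ i, IsCMField (E i)]
  {α : ∀ i, E i}

theorem final_hodge [IsAlgClosed W.K] (hα : ∀ i, IsFreeNumber ι (α i))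
    (hX : ∀ i, HasWeilNumber Φ (X i) (e i) (α i))
    {n : ℕ} {idx : Fin (n + 1) → Fin r} {D : ∀ a, (X (idx a)).Cycles}
    (hD : ∀ a, (X (idx a)).IsCyc 1 (D a))
    (hdeg : ∀ a, 0 < (X (idx a)).V.degCycle (divPow ops (D a) (X (idx a)).dim
      (X (idx a)).V.fundCycle))
    (hHL : ∀ a, HardLefschetz W (X (idx a)) (D a))
    (hH2 : ∀ a b, idx a = idx b →
      HodgeType W ((⟨X (idx a), D a⟩ : Polarized 𝒱).prod ops ⟨X (idx b), D b⟩).X
        ((⟨X (idx a), D a⟩ : Polarized 𝒱).prod ops ⟨X (idx b), D b⟩).D)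
    {𝓛 : Set (IntermediateField ℚ Qb)} {L₀ : Fin r → IntermediateField ℚ Qb}
    (hL₀ : ∀ i, IsStable (L₀ i) ∧ SmallIntersection (E i) (L₀ i) (copies idx i))
    (h𝓛 : ∀ i, ∀ L ∈ 𝓛, IsAllowed (E i) (L₀ i) L)
    (hE : ∀ i j, i < j → IsAllowed (E i) (L₀ i) (galoisClosure (E j))) :
    HomIsNum W (nest ops n (fun a => (⟨X (idx a), D a⟩ : Polarized 𝒱))).X ∧
    HodgeType W (nest ops n (fun a => (⟨X (idx a), D a⟩ : Polarized 𝒱))).X
      (nest ops n (fun a => (⟨X (idx a), D a⟩ : Polarized 𝒱))).D ∧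
    ∀ U : Polarized 𝒱, HasSlopes Φ ι 𝓛 U.X → U.X.IsCyc 1 U.D → HardLefschetz W U.X U.D →
      (HodgeType W ((nest ops n (fun a => (⟨X (idx a), D a⟩ : Polarized 𝒱))).prod ops U).X
        ((nest ops n (fun a => (⟨X (idx a), D a⟩ : Polarized 𝒱))).prod ops U).D ↔
        HodgeType W U.X U.D) := by
  have hp := (Fact.out : p.Prime).one_lt
  have H : FamCond ι α (cnt idx) 𝓛 (fun i => galoisClosure (E i)) L₀ := famCond_of hα hL₀ h𝓛 hE
  obtain ⟨h1, h2⟩ := hodge_fam hX hD hdeg hHL hH2 H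
  exact ⟨homEqNum_of_tateTimesP hp (tateTimesP_fam hX (nest_copies n idx D) H) (inM_one _), h1, h2⟩

end Pool.Agent.Y103.Sh
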