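import Pool.Agent.Y103.Sh.Slope
import Pool.Agent.Y103.Hk.Main2
import Pool.Agent.Y138.KH.Main

/-!
# The conjecture of Hodge type for products of varieties with Weil numbers
-/

set_option autoImplicit false
set_option linter.unusedSectionVars false

open CategoryTheory AlgebraicGeometry NumberField

universe u v w

namespace Pool.Agent.Y103.Sh

open Pool.Agent.H914 Pool.Agent.H914.VarClass Pool.Agent.H914.VarClass.Obj
  Pool.Agent.H914.WeilCohomology Pool.Agent.H281R3.HT Pool.Agent.W552 Pool.Agent.W534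
  Pool.Agent.W458.RK Pool.Agent.W458.MF Pool.Agent.TH132.A Pool.Agent.W536.RR
  Pool.Agent.TH121.KT Pool.Agent.Y138.KC Pool.Agent.W290.MF Pool.Agent.Y138.KH
  Pool.Agent.Y103.Hk

section fam

variable {r : ℕ} {E : Fin r → Type} [∀ i, Field (E i)] [∀ i, NumberField (E i)]
  [∀ i, IsCMField (E i)] {p : ℕ} [Fact p.Prime] {ι : Qb →+* PadicAlgCl p} {α : ∀ i, E i}
  {n n' : Fin r → ℕ} {𝓛 : Set (IntermediateField ℚ Qb)} {S L₀ : Fin r → IntermediateField ℚ Qb}

theorem FamCond.mono (H : FamCond ι α n 𝓛 S L₀) (h : ∀ i, n' i ≤ n i) :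
    FamCond ι α n' 𝓛 S L₀ :=
  ⟨H.rel, H.slope, H.stable, fun i σ => (H.large i σ).imp_right fun h' => (h i).trans_lt h',
    H.fields, H.pair⟩

lemma stable_bot : IsStable ⊥ := by
  intro g x hx
  obtain ⟨y, rfl⟩ := IntermediateField.mem_bot.1 hx
  rw [AlgEquiv.commutes]
  exact IntermediateField.algebraMap_mem _ _

lemma conj_bot (E : Type) [Field E] [NumberField E] [IsCMField E] : IsConjOver E ⊥ := by
  obtain ⟨h, -, hh⟩ := independent_bot (E := E)
  intro σ
  refine ⟨h, fun x hx => ?_, fun x => hh σ x⟩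
  obtain ⟨y, rfl⟩ := IntermediateField.mem_bot.1 hx
  exact AlgEquiv.commutes _ _

lemma large_bot (E : Type) [Field E] [NumberField E] [IsCMField E] (n : ℕ) :
    LargeOrbits E ⊥ n := fun σ => Or.inl (conj_bot E σ)

/-- one member of the family, alone -/
theorem FamCond.one (H : FamCond ι α n 𝓛 S L₀) (i : Fin r) (m : ℕ) :
    FamCond (r := 1) ι (fun _ => α i) (fun _ => m) ∅ (fun _ => S i) (fun _ => ⊥) :=
  ⟨fun _ => H.rel i, fun _ => H.slope i, fun _ => stable_bot, fun _ => large_bot _ _,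
    fun _ L hL => absurd hL (Set.notMem_empty L), fun a b hab => by
      rw [Subsingleton.elim a b] at hab
      exact absurd hab (lt_irrefl _)⟩

/-- one member of the family, with the slopes of a later one -/
theorem FamCond.two (H : FamCond ι α n 𝓛 S L₀) {i j : Fin r} (hij : i < j) :
    FamCond (r := 1) ι (fun _ => α i) (fun _ => n i) {S j} (fun _ => S i) (fun _ => L₀ i) :=
  ⟨fun _ => H.rel i, fun _ => H.slope i, fun _ => H.stable i, fun _ => H.large i,
    fun _ L hL => by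
      rw [Set.mem_singleton_iff.1 hL]
      exact H.pair i j hij, fun a b hab => by
      rw [Subsingleton.elim a b] at hab
      exact absurd hab (lt_irrefl _)⟩

end fam

/-- the number of the factors of each type -/
def cnt {r n : ℕ} (idx : Fin (n + 1) → Fin r) (i : Fin r) : ℕ :=
  (Finset.univ.filter fun a => idx a = i).card

lemma cnt_zero {r : ℕ} (idx : Fin 1 → Fin r) : cnt idx = Pi.single (idx 0) 1 := by
  funext i
  unfold cnt
  rw [Finset.card_filter, Fin.sum_univ_one]
  by_cases h : idx 0 = i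
  · subst h
    rw [if_pos rfl, Pi.single_eq_same]
  · rw [if_neg h, Pi.single_eq_of_ne (Ne.symm h)]

lemma cnt_succ {r n : ℕ} (idx : Fin (n + 2) → Fin r) :
    cnt idx = Pi.single (idx 0) 1 + cnt (n := n) (fun a => idx a.succ) := by
  funext i
  unfold cnt
  rw [Finset.card_filter, Fin.sum_univ_succ, ← Finset.card_filter, Pi.add_apply]
  congr 1
  by_cases h : idx 0 = i
  · subst h
    rw [if_pos rfl, Pi.single_eq_same]
  · rw [if_neg h, Pi.single_eq_of_ne (Ne.symm h)]

lemma cnt_pair {r n : ℕ} (idx : Fin (n + 1) → Fin r) {a b : Fin (n + 1)} (h : idx a ≠ idx b)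
    (i : Fin r) : (Pi.single (idx a) 1 + Pi.single (idx b) 1 : Fin r → ℕ) i ≤ cnt idx i := by
  rw [Pi.add_apply]
  by_cases ha : idx a = i
  · subst ha
    rw [Pi.single_eq_same, Pi.single_eq_of_ne h, add_zero]
    exact Finset.card_pos.2 ⟨a, Finset.mem_filter.2 ⟨Finset.mem_univ _, rfl⟩⟩
  · rw [Pi.single_eq_of_ne (Ne.symm ha), zero_add]
    by_cases hb : idx b = i
    · subst hb
      rw [Pi.single_eq_same]
      exact Finset.card_pos.2 ⟨b, Finset.mem_filter.2 ⟨Finset.mem_univ _, rfl⟩⟩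
    · rw [Pi.single_eq_of_ne (Ne.symm hb)]
      exact Nat.zero_le _

variable {k : Type u} [Field k] {𝒱 : VarClass k} {ops : CycleOps 𝒱}
  {W : WeilCohomology.{u, v} ops} {p : ℕ} [Fact p.Prime] {Φ : FrobSystem W p}
  {ι : Qb →+* PadicAlgCl p}
  {r : ℕ} {X : Fin r → 𝒱.Obj} {e : Fin r → ℕ} {E : Fin r → Type} [∀ i, Field (E i)]
  [∀ i, NumberField (E i)] [∀ i, IsCMField (E i)]
  {α : ∀ i, E i} {Z U : 𝒱.Obj}

lemma nest_copies : ∀ (n : ℕ) (idx : Fin (n + 1) → Fin r) (D : ∀ a, (X (idx a)).Cycles),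
    IsProductOfCopies W X (cnt idx)
      (nest ops n (fun a => (⟨X (idx a), D a⟩ : Polarized 𝒱))).X
  | 0, idx, D => by
    rw [cnt_zero]
    exact IsProductOfCopies.base (idx 0)
  | n + 1, idx, D => by
    rw [cnt_succ]
    exact IsProductOfCopies.prod (IsProductOfCopies.base (idx 0))
      (nest_copies n (fun a => idx a.succ) (fun a => D a.succ))

/-- the Tate conjecture from the Tate conjecture with coefficients -/
lemma tateIn_of [IsAlgClosed W.K] {PP : W.K → Prop} (hT : TateTimesP Φ PP Z) (h1 : PP 1) (c : ℕ) :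
    TateIn Φ Z c := by
  have hp := (Fact.out : p.Prime).one_lt
  intro y hy
  obtain ⟨s, hs, h⟩ := IsTate.mem Φ hy
  exact Y138.TU.semisimple_of_times hp hT h1 c s hs h

/-- one variety, with the slopes of another one -/
lemma times_one [IsAlgClosed W.K] {i : Fin r} (hT : HasWeilNumber Φ (X i) (e i) (α i)) {m : ℕ}
    {𝓛 : Set (IntermediateField ℚ Qb)} {S L₀ : IntermediateField ℚ Qb}
    (H : FamCond (r := 1) ι (fun _ => α i) (fun _ => m) 𝓛 (fun _ => S) (fun _ => L₀)) (hm : 1 ≤ m) :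
    TateTimesP Φ (IsSlopeProduct ι 𝓛) (X i) := by
  have h1 : IsProductOfCopies W (fun _ : Fin 1 => X i) (fun _ => 1) (X i) := by
    have h2 := IsProductOfCopies.base (W := W) (X := fun _ : Fin 1 => X i) 0
    convert h2 using 1
    funext j
    rw [Subsingleton.elim j 0, Pi.single_eq_same]
  exact tateTimesP_fam (X := fun _ : Fin 1 => X i) (e := fun _ => e i) (fun _ => hT) h1
    (H.mono fun _ => hm)

lemma tate_self [IsAlgClosed W.K] (hT : ∀ i, HasWeilNumber Φ (X i) (e i) (α i))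
    {n : Fin r → ℕ} {𝓛 : Set (IntermediateField ℚ Qb)} {S L₀ : Fin r → IntermediateField ℚ Qb}
    (H : FamCond ι α n 𝓛 S L₀) (i : Fin r) (c : ℕ) : TateIn Φ ((X i).prod (X i)) c := by
  have h1 : IsProductOfCopies W (fun _ : Fin 1 => X i) (fun _ => 2) ((X i).prod (X i)) := by
    have h2 := IsProductOfCopies.base (W := W) (X := fun _ : Fin 1 => X i) 0
    have h3 := IsProductOfCopies.prod h2 h2
    convert h3 using 1
    funext j
    rw [Subsingleton.elim j 0, Pi.add_apply, Pi.single_eq_same]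
  exact tateIn_of (tateTimesP_fam (X := fun _ : Fin 1 => X i) (e := fun _ => e i) (fun _ => hT i) h1
    (H.one i 2)) (inM_one _) c

lemma tate_mixed [IsAlgClosed W.K] (hT : ∀ i, HasWeilNumber Φ (X i) (e i) (α i))
    {n : ℕ} {idx : Fin (n + 1) → Fin r} {𝓛 : Set (IntermediateField ℚ Qb)}
    {S L₀ : Fin r → IntermediateField ℚ Qb}
    (H : FamCond ι α (cnt idx) 𝓛 S L₀) (a b : Fin (n + 1)) (c : ℕ) :
    TateIn Φ ((X (idx a)).prod (X (idx b))) c := by
  by_cases hab : idx a = idx b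
  · rw [hab]
    exact tate_self hT H (idx b) c
  · exact tateIn_of (tateTimesP_fam hT (IsProductOfCopies.prod (IsProductOfCopies.base (idx a))
      (IsProductOfCopies.base (idx b))) (H.mono (cnt_pair idx hab))) (inM_one _) c

/-- the algebraic classes on the product of two different varieties split -/
lemma tens_mixed [IsAlgClosed W.K] (hT : ∀ i, HasWeilNumber Φ (X i) (e i) (α i))
    {n : Fin r → ℕ} {𝓛 : Set (IntermediateField ℚ Qb)} {S L₀ : Fin r → IntermediateField ℚ Qb}
    (H : FamCond ι α n 𝓛 S L₀) {i j : Fin r} (hi : 1 ≤ n i) (hij : i < j)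
    (z : W.H ((X i).prod (X j))) (hz : AS W ((X i).prod (X j)) z) : z ∈ tens W (X i) (X j) := by
  have hp := (Fact.out : p.Prime).one_lt
  exact tens_of_tateTimesP hp (times_one (hT i) (H.two hij) hi) (inM_one _)
    (fun ν m _ h => inM_pow ν m h) (slopes_of_number (hT j) (Set.mem_singleton _) (H.slope j)) hz

/-- **The conjecture of Hodge type for the products, and the products with other varieties.** -/
theorem hodge_fam [IsAlgClosed W.K] (hT : ∀ i, HasWeilNumber Φ (X i) (e i) (α i))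
    {n : ℕ} {idx : Fin (n + 1) → Fin r} {D : ∀ a, (X (idx a)).Cycles}
    (hD : ∀ a, (X (idx a)).IsCyc 1 (D a))
    (hdeg : ∀ a, 0 < (X (idx a)).V.degCycle (divPow ops (D a) (X (idx a)).dim
      (X (idx a)).V.fundCycle))
    (hHL : ∀ a, HardLefschetz W (X (idx a)) (D a))
    (hH2 : ∀ a b, idx a = idx b →
      HodgeType W ((⟨X (idx a), D a⟩ : Polarized 𝒱).prod ops ⟨X (idx b), D b⟩).X
        ((⟨X (idx a), D a⟩ : Polarized 𝒱).prod ops ⟨X (idx b), D b⟩).D)
    {𝓛 : Set (IntermediateField ℚ Qb)} {S L₀ : Fin r → IntermediateField ℚ Qb}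
    (H : FamCond ι α (cnt idx) 𝓛 S L₀) :
    HodgeType W (nest ops n (fun a => (⟨X (idx a), D a⟩ : Polarized 𝒱))).X
      (nest ops n (fun a => (⟨X (idx a), D a⟩ : Polarized 𝒱))).D ∧
    ∀ U : Polarized 𝒱, HasSlopes Φ ι 𝓛 U.X → U.X.IsCyc 1 U.D → HardLefschetz W U.X U.D →
      (HodgeType W ((nest ops n (fun a => (⟨X (idx a), D a⟩ : Polarized 𝒱))).prod ops U).X
        ((nest ops n (fun a => (⟨X (idx a), D a⟩ : Polarized 𝒱))).prod ops U).D ↔
        HodgeType W U.X U.D) := by
  have hp := (Fact.out : p.Prime).one_lt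
  -- the levels
  let M : ℕ := ∏ i, Φ.e (X i)
  let m : Fin r → ℕ := fun i => ∏ j ∈ Finset.univ.erase i, Φ.e (X j)
  have hm : ∀ i, Φ.e (X i) * m i = M := fun i =>
    Finset.mul_prod_erase Finset.univ (fun j => Φ.e (X j)) (Finset.mem_univ i)
  have hM : 0 < M := Finset.prod_pos fun i _ => Φ.e_pos _
  have hm0 : ∀ i, 0 < m i := fun i => Finset.prod_pos fun i _ => Φ.e_pos _
  have hq : (p ^ M : ℕ) ≠ 0 := pow_ne_zero _ (Fact.out : p.Prime).ne_zero
  have hqK : ((p ^ M : ℕ) : W.K) ≠ 0 := Nat.cast_ne_zero.2 hq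
  let P : Fin (n + 1) → Polarized 𝒱 := fun a => ⟨X (idx a), D a⟩
  let f : ∀ a, (P a).X ⟶ (P a).X := fun a => W534.iter (Φ.Fr (X (idx a))) (m (idx a))
  have hF1 : ∀ a, FrobeniusOnCycles W (P a).X (f a) (p ^ M) := fun a =>
    frob_nest hM 0 (fun _ => P a) (fun _ => m (idx a)) (fun _ => hm (idx a))
  have hF : FrobeniusOnCycles W (nest ops n P).X (nestMap ops n P f) (p ^ M) :=
    frob_nest hM n P (fun a => m (idx a)) (fun a => hm (idx a))
  have hTp : ∀ a b, TateClassesAlgebraic W ((P a).X.prod (P b).X) (pairMap (f a) (f b)) (p ^ M) :=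
    fun a b => tate_pair2 (P := P a) (Q := P b) hM (hm (idx a)) (hm (idx b)) (tate_mixed hT H a b)
  have hH1 : ∀ a, HodgeType W (P a).X (P a).D := fun a =>
    hodge_of_square (hD a) (hdeg a) (hHL a)
      (lefschetzB_of_tate (hD a) (hHL a) hq (hF1 a) (hTp a a)) (hH2 a a rfl)
  have hcnt : ∀ a, 1 ≤ cnt idx (idx a) := fun a =>
    Finset.card_pos.2 ⟨a, Finset.mem_filter.2 ⟨Finset.mem_univ _, rfl⟩⟩
  have hDnum : ∀ i, HomEqNum W (X i) := fun i =>
    homEqNum_of_tateTimesP hp (times_one (hT i) (H.one i 1) le_rfl) (inM_one _)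
  have hpairs : ∀ a b, HodgeType W ((P a).prod ops (P b)).X ((P a).prod ops (P b)).D := by
    intro a b
    rcases lt_trichotomy (idx a) (idx b) with hab | hab | hab
    · exact hodge_of_tens (Q := P a) (U := P b) (tens_mixed hT H (hcnt a) hab) (hDnum (idx a))
        (hD a) (hHL a) (hH1 a) (hD b) (hHL b) (hH1 b)
    · exact hH2 a b hab
    · exact hodge_of_tens (Q := P a) (U := P b) (tens_swap (tens_mixed hT H (hcnt b) hab))
        (hDnum (idx a)) (hD a) (hHL a) (hH1 a) (hD b) (hHL b) (hH1 b)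
  have hN : NoExotic W f (p ^ M) := by
    intro y hy hrel
    refine pairGen (K := W.K) (n := cnt idx) (fun i => (H.rel i).unitary) ?_ hqK
      (D := fun i => (X i).dim) (e := e) (m := m) (fun i => (hT i).pos) hm0 idx y
      (Finset.univ : Finset (Fin (n + 1))).card Finset.univ rfl (fun i => le_rfl) ?_ hrel
    · intro N w hw hNn hprod
      exact balanced_fam_closed H hNn hw (W := 0) (ν := (1 : W.K)) (x₀ := 1) (inM_one _)
        one_ne_zero (by rw [hprod, pow_zero, one_mul, Rat.cast_one])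
    · intro a _
      have h1 := weight_iter (hT (idx a)) (hm0 (idx a)) (hy a)
      rwa [hm] at h1
  have hmain : HodgeType W (nest ops n P).X (nest ops n P).D := hodge_neat2 (P := P) (f := f) hq
    hD hdeg hHL (fun a => diag_iter (hT (idx a)) (m (idx a))) hF1 hF
    hTp hN hpairs
  refine ⟨hmain, fun U hU hB hUL => ?_⟩
  exact hodge_timesP hp (Q := nest ops n P) (PP := IsSlopeProduct ι 𝓛) (tateTimesP_fam hT (nest_copies n idx D) H)
    (inM_one _) (fun ν n _ h => inM_pow ν n h)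
    (nest_lw n P fun i => by
      obtain ⟨f, Ff, -⟩ := exists_lw (hD i) (hHL i)
      exact ⟨f, Ff⟩)
    (nest_one n P fun i => one_ne_of_deg (hD i) (hdeg i)) hmain hU hB hUL

end Pool.Agent.Y103.Sh
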