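import Pool.Agent.Y138.KH.Diag

/-!
# The conjecture of Hodge type for a product without exotic relations between one eigenvalue of
each factor
-/

set_option autoImplicit false

open CategoryTheory AlgebraicGeometry

universe u v w

namespace Pool.Agent.Y103.Sh

open Pool.Agent.H914 Pool.Agent.H914.VarClass Pool.Agent.H914.VarClass.Obj
  Pool.Agent.H914.WeilCohomology Pool.Agent.H281R3.HT Pool.Agent.W552

section neat

variable {k : Type u} [Field k] {𝒱 : VarClass k} {ops : CycleOps 𝒱}
  {W : WeilCohomology.{u, v} ops}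

variable {n : ℕ} {P : Fin (n + 1) → Polarized 𝒱} {f : ∀ a, (P a).X ⟶ (P a).X} {q : ℕ}

/-- Every relation between one eigenvalue of each factor is a sum of relations between one or two
eigenvalues. -/
def NoExotic (W : WeilCohomology.{u, v} ops) {n : ℕ} {P : Fin (n + 1) → Polarized 𝒱}
    (f : ∀ a, (P a).X ⟶ (P a).X) (q : ℕ) : Prop :=
  ∀ y : Fin (n + 1) → ℕ × W.K, (∀ a, IsWeight W (f a) (y a)) →
    IsTateRel q (((List.finRange (n + 1) : List (Fin (n + 1))) : Multiset (Fin (n + 1))).map y) →
    PairGenerated q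
      (((List.finRange (n + 1) : List (Fin (n + 1))) : Multiset (Fin (n + 1))).map y)

theorem alg_mem_matching2 (hf : ∀ a, Diagonalizable W (f a))
    (hT : ∀ a, TateClassesAlgebraic W (P a).X (f a) q)
    (hT2 : ∀ a b, TateClassesAlgebraic W ((P a).X.prod (P b).X) (pairMap (f a) (f b)) q)
    (hN : NoExotic W f q) {j : ℕ} {c : W.H (nest ops n P).X}
    (hc : c ∈ W.gr (nest ops n P).X (2 * j))
    (hF : ∃ m ≥ 1, (W.map (nestMap ops n P f))^[m] c = (q : W.K) ^ (m * j) • c) :
    c ∈ matchingSpan W P := by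
  obtain ⟨m, hm, hcm⟩ := hF
  set T : Module.End W.K (W.H (nest ops n P).X) :=
    (W.map (nestMap ops n P f)).toLinearMap ^ m with hT'
  have hTa : ∀ v, T v = (W.map (nestMap ops n P f))^[m] v := by
    intro v
    rw [hT', Module.End.pow_apply]
    rfl
  have hphi : ∀ (x : ∀ a, W.H (P a).X) (α : Fin (n + 1) → W.K),
      (∀ a, W.map (f a) (x a) = α a • x a) →
      T ((List.finRange (n + 1)).map (fun a => W.map (prj ops n P a) (x a))).prod =
        (((List.finRange (n + 1)).map α).prod) ^ m •
          ((List.finRange (n + 1)).map (fun a => W.map (prj ops n P a) (x a))).prod := by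
    intro x α hα
    rw [hTa]
    apply iterate_eigen
    apply list_prod_eigen
    intro a
    rw [map_nestMap, hα, map_smul]
  have h1 : c ∈ Submodule.span W.K {v | v ∈ EigProd W P f ∧ T v = (q : W.K) ^ (m * j) • v} := by
    refine mem_span_eigen ?_ (span_eigProd hf) ((hTa c).trans hcm)
    rintro v ⟨x, d, α, hd, hα, rfl⟩
    exact ⟨_, hphi x α hα⟩
  have key : ∀ v ∈ Submodule.span W.K
      {v | v ∈ EigProd W P f ∧ T v = (q : W.K) ^ (m * j) • v},
      H914.proj (W.isInternal (nest ops n P).X) (2 * j) v ∈ matchingSpan W P := by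
    intro v hv
    induction hv using Submodule.span_induction with
    | mem v hv =>
      obtain ⟨⟨x, d, α, hd, hα, rfl⟩, hTv⟩ := hv
      have hmem := list_prod_mem (fun a => W.map (prj ops n P a) (x a)) d
        (fun a => W.map_mem _ (hd a)) (List.finRange (n + 1))
      by_cases hv0 : ((List.finRange (n + 1)).map (fun a => W.map (prj ops n P a) (x a))).prod = 0
      · rw [hv0, map_zero]
        exact Submodule.zero_mem _
      by_cases hj : ((List.finRange (n + 1)).map d).sum = 2 * j
      · rw [hj] at hmem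
        rw [proj_same _ hmem]
        rw [hphi x α hα] at hTv
        have hαm := smul_left_injective W.K hv0 hTv
        have hx0 : ∀ a, x a ≠ 0 := by
          intro a ha
          apply hv0
          apply List.prod_eq_zero
          rw [List.mem_map]
          exact ⟨a, List.mem_finRange a, by rw [ha, map_zero]⟩
        have hs := hN (fun a => (d a, α a)) (fun a => ⟨x a, hd a, hx0 a, hα a⟩) ⟨j, by
              rw [Multiset.map_map, Multiset.map_coe, Multiset.sum_coe]
              exact hj, m, hm, by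
              rw [Multiset.map_map, Multiset.map_coe, Multiset.prod_coe]
              exact hαm⟩
        exact mspan_le _ (prod_mem_mspan hT hT2 x d α hd hα hs _ (List.nodup_finRange _) rfl)
      · rw [proj_ne _ hmem hj]
        exact Submodule.zero_mem _
    | zero => rw [map_zero]; exact Submodule.zero_mem _
    | add x y _ _ hx hy => rw [map_add]; exact Submodule.add_mem _ hx hy
    | smul t x _ hx => rw [map_smul]; exact Submodule.smul_mem _ _ hx
  have h2 := key c h1
  rwa [proj_same _ hc] at h2

/-- **The conjecture of Hodge type for a product of `n + 1` factors, from the products of two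
factors.** -/
theorem hodge_neat2 (hq : q ≠ 0) (hD : ∀ j, (P j).X.IsCyc 1 (P j).D)
    (hdeg : ∀ j, 0 < (P j).X.V.degCycle (divPow ops (P j).D (P j).X.dim (P j).X.V.fundCycle))
    (hHL : ∀ j, HardLefschetz W (P j).X (P j).D) (hf : ∀ j, Diagonalizable W (f j))
    (hF1 : ∀ j, FrobeniusOnCycles W (P j).X (f j) q)
    (hF : FrobeniusOnCycles W (nest ops n P).X (nestMap ops n P f) q)
    (hT : ∀ i j, TateClassesAlgebraic W ((P i).X.prod (P j).X) (pairMap (f i) (f j)) q)
    (hN : NoExotic W f q)
    (hH2 : ∀ i j, HodgeType W ((P i).prod ops (P j)).X ((P i).prod ops (P j)).D) :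
    HodgeType W (nest ops n P).X (nest ops n P).D := by
  have hB : ∀ j, LefschetzB W (P j).X (P j).D := fun j =>
    lefschetzB_of_tate (hD j) (hHL j) hq (hF1 j) (hT j j)
  have hT1 : ∀ j, TateClassesAlgebraic W (P j).X (f j) q := fun j =>
    tate_of_square (hD j) (hdeg j) (hT j j)
  have hH : ∀ j, HodgeType W (P j).X (P j).D := fun j =>
    hodge_of_square (hD j) (hdeg j) (hHL j) (hB j) (hH2 j j)
  have key : ∀ j z, (nest ops n P).X.IsCyc j z → W.cl _ z ∈ matchingSpan W P := by
    intro j z hz
    obtain ⟨m, hm, hm'⟩ := hF j z hz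
    refine alg_mem_matching2 hf hT1 hT hN (W.cl_mem hz) ⟨m, hm, ?_⟩
    rw [← cl_iterate, hm']
  obtain ⟨h1, -⟩ := hodge_matching (W := W) (P := P) hD hHL hB hH hH2
  exact fun j hj z hz => h1 j hj z hz (key j z hz)

end neat

open Pool.Agent.W534
  Pool.Agent.W458.RK Pool.Agent.W458.MF Pool.Agent.TH132.A Pool.Agent.W536.RR
  Pool.Agent.TH121.KT Pool.Agent.Y138.KC Pool.Agent.W290.MF Pool.Agent.Y138.KH

variable {k : Type u} [Field k] {𝒱 : VarClass k} {ops : CycleOps 𝒱}
  {W : WeilCohomology.{u, v} ops} {p : ℕ} {Φ : FrobSystem W p} {X Y : 𝒱.Obj} {e : ℕ}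
  {E : Type} [Field E] {α : E}

lemma iter_eig {v : W.H X} {β : W.K} (h : W.map (Φ.Fr X) v = β • v) (m : ℕ) :
    W.map (W534.iter (Φ.Fr X) m) v = β ^ m • v := by
  rw [W534.map_iter]
  exact W534.iterate_eig (fun a x => map_smul (W.map (Φ.Fr X)) a x) h m

theorem diag_iter [IsAlgClosed W.K] (hX : HasWeilNumber Φ X e α) (m : ℕ) :
    Diagonalizable W (W534.iter (Φ.Fr X) m) := by
  rw [Diagonalizable, eq_top_iff, ← span_eigSet hX]
  apply Submodule.span_le.2
  intro v hv
  obtain ⟨β, hβ⟩ := eig_of_eigSet hv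
  exact Submodule.mem_iSup_of_mem (β ^ m) (Module.End.mem_eigenspace_iff.2 (iter_eig hβ m))

end Pool.Agent.Y103.Sh
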