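import Pool.Agent.Y103.Sh.Fam
import Pool.Agent.TH121.KT.Word3

/-!
# The Tate conjecture for the products of varieties with Weil numbers and varieties with slopes in
several fields
-/

set_option autoImplicit false
set_option linter.unusedSectionVars false

open CategoryTheory AlgebraicGeometry NumberField
open scoped TensorProduct

universe u v

namespace Pool.Agent.Y103.Sh

open Pool.Agent.H914 Pool.Agent.H914.VarClass Pool.Agent.H914.VarClass.Obj
  Pool.Agent.H914.WeilCohomology Pool.Agent.H281R3.HT Pool.Agent.W552 Pool.Agent.W534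
  Pool.Agent.W458.RK Pool.Agent.W458.MF Pool.Agent.TH132.A Pool.Agent.W536.RR
  Pool.Agent.TH121.KT Pool.Agent.Y103.Hk

variable {k : Type u} [Field k] {𝒱 : VarClass k} {ops : CycleOps 𝒱}
  {W : WeilCohomology.{u, v} ops} {p : ℕ} [Fact p.Prime] {Φ : FrobSystem W p}
  {ι : Qb →+* PadicAlgCl p}
  {r : ℕ} {X : Fin r → 𝒱.Obj} {e : Fin r → ℕ} {E : Fin r → Type} [∀ i, Field (E i)]
  [∀ i, NumberField (E i)] [∀ i, IsCMField (E i)]
  {α : ∀ i, E i} {Z U : 𝒱.Obj}

/-- **The Tate conjecture for the products of copies of the `X i` with all varieties with such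
slopes.** -/
theorem tateTimesP_fam [IsAlgClosed W.K] (hT : ∀ i, HasWeilNumber Φ (X i) (e i) (α i))
    {n : Fin r → ℕ} (hZ : IsProductOfCopies W X n Z) {𝓛 : Set (IntermediateField ℚ Qb)}
    {S L₀ : Fin r → IntermediateField ℚ Qb} (H : FamCond ι α n 𝓛 S L₀) :
    TateTimesP Φ (IsSlopeProduct ι 𝓛) Z := by
  classical
  intro s hs V _ _ _ G hG c a x hx
  have hp0 : (p : W.K) ≠ 0 := by exact_mod_cast (Fact.out : p.Prime).ne_zero
  have hpq : (p : ℚ) ≠ 0 := by exact_mod_cast (Fact.out : p.Prime).ne_zero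
  have hcard : ∀ t, ((card Φ Z t : ℚ)) ≠ 0 := by
    intro t
    rw [W534.card]
    push_cast
    exact pow_ne_zero _ hpq
  have hQ : ∀ t, (card Φ Z t : W.K) ≠ 0 := fun t => card_ne Φ t
  refine (tensor_killed (F := frob Φ Z s) (G := G) (card Φ Z s : W.K) (hQ s) c
    (fun i => cycSub W Z i) (fun i y hy => cyc_killed Φ hy) ?_ a x).1 hx
  intro μ ν N hN hν hrel
  refine le_trans ?_ algSpan_le_cyc
  intro y hy
  have hνM := hG ν hν
  have hν0 : ν ≠ 0 := by
    rintro rfl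
    rw [mul_zero, zero_pow hN.ne'] at hrel
    exact pow_ne_zero _ (zpow_ne_zero _ (hQ s)) hrel.symm
  obtain ⟨t₀, ht₀, h0⟩ := TH121.KT.span_good (TH121.KT.span_words hT hZ y)
  have h1 := h0 s hs
  set T := t₀ * s with hTdef
  have hTs : T = s * t₀ := mul_comm t₀ s
  have h2 : y ∈ Module.End.maxGenEigenspace (frob Φ Z T) (μ ^ t₀) := by
    rw [hTs, frob_mul_eq]
    exact gen_pow_of_gen hy _
  have heig : ∀ v ∈ TH121.KT.GoodWords Φ X e α n Z T, ∃ (ω : W.K) (A M : ℕ)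
      (L : List (Letter Φ X e α Z))
      (C : W.H Z), frob Φ Z T v = ω • v ∧ 0 < M ∧ C ∈ algSpan W Z ∧ v = TH121.KT.wordVal L * C ∧
      (∀ i, ∑ σ : E i →+* W.K, TH121.KT.mult L i σ ≤ n i) ∧
      ω ^ (2 * (∏ j, (e j * Φ.e (X j))) * M) = (card Φ Z T : W.K) ^ A *
        letterProd α (expo Φ X e Z T M) (TH121.KT.mult L) := by
    rintro v ⟨L, j, M, c, hM, hc, hn, hL, hcyc, rfl⟩
    obtain ⟨ω, A, h3, h4⟩ := TH121.KT.word_eigen L hL
    refine ⟨ω * (card Φ Z T : W.K) ^ j, A + j * (2 * (∏ j, (e j * Φ.e (X j))) * M), M, L,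
      W.cl Z c, ?_, hM, cl_mem_algSpan hc, rfl, hn, ?_⟩
    · rw [frob_mul_apply, h3, hcyc, smul_mul_smul_comm]
    · rw [mul_pow, h4, TH121.KT.prod_letters, pow_add, ← pow_mul]
      ring
  have h3 := mem_span_gen (T := frob Φ Z T) (fun v hv => by
    obtain ⟨ω, _, _, _, _, h, _⟩ := heig v hv
    exact ⟨ω, eig_mem_gen h⟩) h1 h2
  refine (Submodule.span_le (p := algSpan W Z)).2 ?_ h3
  rintro v ⟨hv, hvμ⟩
  by_cases hv0 : v = 0
  · rw [hv0]
    exact Submodule.zero_mem _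
  obtain ⟨ω, A, M, Lw, C, h4, hM, hC, hvL, hn, h5⟩ := heig v hv
  have h6 : ω = μ ^ t₀ := eq_of_mem_gen (eig_mem_gen h4) hvμ hv0
  -- the relation
  let E' : ℕ := 2 * (∏ j, (e j * Φ.e (X j))) * M
  have hE : 0 < E' := Nat.mul_pos (Nat.mul_pos two_pos (Finset.prod_pos fun j _ =>
    Nat.mul_pos (hT j).pos (Φ.e_pos _))) hM
  let w : Fin r → ℕ := expo Φ X e Z T M
  have hTpos : 0 < T := Nat.mul_pos ht₀ hs
  have hw : ∀ i, 0 < w i := fun i => Nat.mul_pos (Nat.mul_pos (Nat.mul_pos two_pos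
    (Nat.mul_pos hTpos (Φ.e_pos _))) hM) (Finset.prod_pos fun j _ =>
    Nat.mul_pos (hT j).pos (Φ.e_pos _))
  let x₀ : ℚ := ((card Φ Z s : ℚ) ^ c) ^ (N * (t₀ * E')) * (((card Φ Z T : ℚ) ^ A) ^ N)⁻¹
  have h7 : letterProd α (fun i => N * w i) (TH121.KT.mult Lw) * ν ^ (N * (t₀ * E')) =
      (x₀ : W.K) := by
    rw [← letterProd_pow]
    have h8 : (μ * ν) ^ (N * (t₀ * E')) = ((card Φ Z s : W.K) ^ c) ^ (N * (t₀ * E')) := by
      rw [pow_mul, hrel, ← pow_mul]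
    have h9 : μ ^ (N * (t₀ * E')) = ((card Φ Z T : W.K) ^ A) ^ N *
        letterProd α w (TH121.KT.mult Lw) ^ N := by
      rw [← mul_pow, ← h5, h6, ← pow_mul, ← pow_mul]
      congr 1
      simp only [E']
      ring
    rw [mul_pow, h9] at h8
    have h10 : (x₀ : W.K) = ((card Φ Z s : W.K) ^ c) ^ (N * (t₀ * E')) *
        (((card Φ Z T : W.K) ^ A) ^ N)⁻¹ := by
      simp only [x₀]
      push_cast
      rfl
    have h11 : ((card Φ Z T : W.K) ^ A) ^ N ≠ 0 := pow_ne_zero _ (pow_ne_zero _ (hQ T))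
    rw [h10, ← h8]
    generalize ((card Φ Z T : W.K) ^ A) ^ N = B at h11
    field_simp
  have hbal := balanced_fam_closed H hn (w := fun i => N * w i)
    (fun i => Nat.mul_pos hN (hw i)) hνM hν0 (x₀ := x₀) h7
  rw [hvL]
  refine algSpan_mul (TH121.KT.balanced_alg hT (fun i => (H.rel i).unitary) Lw.length Lw le_rfl ?_)
    hC
  rintro ⟨i, σ⟩
  have h12 := hbal i σ
  unfold TH121.KT.mult at h12
  exact h12

end Pool.Agent.Y103.Sh
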