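import Pool.Agent.Y103.Sh.Ora
import Pool.Agent.Y103.Sh.Diag
import Pool.Agent.Y138.KH.Times
import Pool.Agent.Y103.Hk.Op

/-!
# The slopes of a variety with a Weil number, and the pairs of factors
-/

set_option autoImplicit false
set_option linter.unusedSectionVars false

open CategoryTheory AlgebraicGeometry NumberField Polynomial

universe u v w

namespace Pool.Agent.Y103.Sh

open Pool.Agent.H914 Pool.Agent.H914.VarClass Pool.Agent.H914.VarClass.Obj
  Pool.Agent.H914.WeilCohomology Pool.Agent.H281R3.HT Pool.Agent.W552 Pool.Agent.W534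
  Pool.Agent.W458.RK Pool.Agent.W458.MF Pool.Agent.TH132.A Pool.Agent.W536.RR
  Pool.Agent.TH121.KT Pool.Agent.Y138.KC Pool.Agent.W290.MF Pool.Agent.Y138.KH
  Pool.Agent.Y103.Hk

section num

variable {p : ℕ} [Fact p.Prime] {ι : Qb →+* PadicAlgCl p} {Ω : Type*} [Field Ω] [CharZero Ω]

lemma slopeRoot_rat (L : IntermediateField ℚ Qb) (x : ℚ) : SlopeRoot ι L (x : Ω) := by
  refine ⟨X - C x, X_sub_C_ne_zero x, ?_, ?_⟩
  · intro h _ γ hγ
    rw [map_sub, aeval_X, aeval_C, sub_eq_zero] at hγ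
    rw [hγ, AlgEquiv.commutes]
  · rw [map_sub, aeval_X, aeval_C, sub_eq_zero]
    exact (eq_ratCast (algebraMap ℚ Ω) x).symm

lemma slopeRoot_emb {E : Type} [Field E] [NumberField E] {α : E} {L : IntermediateField ℚ Qb}
    (h : ∀ σ : E →+* Qb, SlopeRoot ι L (σ α)) (σ : E →+* Ω) : SlopeRoot ι L (σ α) := by
  obtain ⟨σ₀⟩ : Nonempty (E →+* Qb) := ⟨(IsAlgClosed.lift : E →ₐ[ℚ] Qb).toRingHom⟩
  obtain ⟨Q, hQ, h1, h2⟩ := h σ₀
  refine ⟨Q, hQ, h1, ?_⟩
  have h3 : aeval α Q = 0 := by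
    have h4 : aeval (σ₀.toRatAlgHom α) Q = 0 := h2
    rw [Polynomial.aeval_algHom_apply, map_eq_zero] at h4
    exact h4
  have h4 : aeval (σ.toRatAlgHom α) Q = 0 := by
    rw [Polynomial.aeval_algHom_apply, h3, map_zero]
  exact h4

lemma inM_of {𝓛 : Set (IntermediateField ℚ Qb)} {L : IntermediateField ℚ Qb} (hL : L ∈ 𝓛) {β : Ω}
    (h : SlopeRoot ι L β) : IsSlopeProduct ι 𝓛 β :=
  ⟨1, [β], one_pos, by simp, fun γ hγ => ⟨L, hL, by rwa [List.mem_singleton.1 hγ]⟩⟩

end num

variable {k : Type u} [Field k] {𝒱 : VarClass k} {ops : CycleOps 𝒱}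
  {W : WeilCohomology.{u, v} ops} {p : ℕ} [Fact p.Prime] {Φ : FrobSystem W p}
  {ι : Qb →+* PadicAlgCl p} {X Y : 𝒱.Obj} {e : ℕ} {E : Type} [Field E] [NumberField E]
  {α : E}

/-- an eigenvector has an eigenvector of some degree -/
lemma exists_weight {ν : W.K} (hν : Module.End.HasEigenvalue (W.map (Φ.Fr X)).toLinearMap ν) :
    ∃ d, IsWeight W (W534.iter (Φ.Fr X) 1) (d, ν) := by
  obtain ⟨y, hy, hy0⟩ := hν.exists_hasEigenvector
  have hy1 : W.map (Φ.Fr X) y = ν • y := Module.End.mem_eigenspace_iff.1 hy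
  by_contra hcon
  push Not at hcon
  apply hy0
  have h1 : ∀ d, H914.proj (W.isInternal X) d y = 0 := by
    intro d
    by_contra h0
    refine hcon d ⟨H914.proj (W.isInternal X) d y, proj_mem _ _ _, h0, ?_⟩
    rw [map_iter_one]
    change W.map (Φ.Fr X) (H914.proj (W.isInternal X) d y) = ν • _
    rw [← map_smul, ← hy1]
    refine gr_induction (W.isInternal X) (p := fun y => W.map (Φ.Fr X)
      (H914.proj (W.isInternal X) d y) = H914.proj (W.isInternal X) d (W.map (Φ.Fr X) y)) ?_ ?_ y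
    · intro i x hx
      by_cases hi : i = d
      · subst hi
        rw [proj_same _ hx, proj_same _ (W.map_mem _ hx)]
      · rw [proj_ne _ hx hi, proj_ne _ (W.map_mem _ hx) hi, map_zero]
    · intro x x' hx hx'
      simp only [map_add, hx, hx']
  have h2 := congrArg (fun F : Module.End W.K (W.H X) => F y)
    (sum_proj (W.isInternal X) (N := 2 * X.dim + 1) W_hbd)
  simp only [LinearMap.sum_apply, h1, Finset.sum_const_zero, Module.End.one_apply] at h2
  exact h2.symm

/-- The Frobenius eigenvalues of a variety with a Weil number. -/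
theorem slopes_of_number [IsAlgClosed W.K] (hX : HasWeilNumber Φ X e α)
    {𝓛 : Set (IntermediateField ℚ Qb)} {L : IntermediateField ℚ Qb} (hL : L ∈ 𝓛)
    (h : ∀ σ : E →+* Qb, SlopeRoot ι L (σ α)) : HasSlopes Φ ι 𝓛 X := by
  intro ν hν
  have hrat : ∀ x : ℚ, IsSlopeProduct ι 𝓛 (x : W.K) := fun x => inM_of hL (slopeRoot_rat L x)
  obtain ⟨d, hd⟩ := exists_weight hν
  rcases weight_cases hX hd with ⟨j, -, m, hm, h1⟩ | ⟨-, σ, N, hN, h1⟩
  · rw [Multiset.map_singleton, Multiset.prod_singleton] at h1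
    refine inM_root (n := m) hm ?_
    change IsSlopeProduct ι 𝓛 (ν ^ m)
    change ν ^ m = _ at h1
    rw [h1]
    have h2 := inM_pow _ (m * j) (hrat ((p ^ Φ.e X : ℕ) : ℚ))
    rwa [Rat.cast_natCast] at h2
  · refine inM_root (n := 2 * e * N) (Nat.mul_pos (Nat.mul_pos two_pos hX.pos) hN) ?_
    change IsSlopeProduct ι 𝓛 (ν ^ (2 * e * N))
    change ν ^ (2 * e * N) = _ at h1
    rw [h1]
    have h2 := inM_pow _ (X.dim * (e * N)) (hrat ((p ^ Φ.e X : ℕ) : ℚ))
    rw [Rat.cast_natCast] at h2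
    exact inM_mul h2 (inM_pow _ _ (inM_of hL (slopeRoot_emb h σ)))

/-- the sums of products of algebraic classes and the exchange of the factors -/
lemma tens_swap (h : ∀ z, AS W (X.prod Y) z → z ∈ tens W X Y) (z : W.H (Y.prod X))
    (hz : AS W (Y.prod X) z) : z ∈ tens W Y X := by
  have h1 := h _ (hz.map (swap X Y))
  have key : ∀ w ∈ tens W X Y, W.map (swap Y X) w ∈ tens W Y X := by
    intro w hw
    refine AddSubmonoid.closure_induction (motive := fun w _ => W.map (swap Y X) w ∈ tens W Y X)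
      ?_ ?_ ?_ hw
    · rintro _ ⟨x, y, hx, hy, rfl⟩
      refine AddSubmonoid.subset_closure ⟨y, x, hy, hx, ?_⟩
      rw [H281R3.HT.ext, H281R3.HT.ext, map_mul, ← W.map_comp, ← W.map_comp, swap_fst, swap_snd]
      refine AS.ind (p := fun x => W.map (snd Y X) x * W.map (fst Y X) y =
        W.map (fst Y X) y * W.map (snd Y X) x) ?_ ?_ hx
      · intro j x hx
        exact W.even_comm (W.map_mem (snd Y X) (alg_gr hx)) _
      · intro a b ha hb
        rw [map_add, add_mul, mul_add, ha, hb]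
    · rw [map_zero]; exact AddSubmonoid.zero_mem _
    · intro a b _ _ ha hb
      rw [map_add]; exact AddSubmonoid.add_mem _ ha hb
  have h2 := key _ h1
  rwa [swap_swap] at h2

/-- **The conjecture of Hodge type for a product whose algebraic classes split.** -/
theorem hodge_of_tens {Q U : Polarized 𝒱} (htens : ∀ z, AS W (Q.X.prod U.X) z → z ∈ tens W Q.X U.X)
    (hD : HomEqNum W Q.X) (hQD : Q.X.IsCyc 1 Q.D) (hQL : HardLefschetz W Q.X Q.D)
    (hHQ : HodgeType W Q.X Q.D) (hB : U.X.IsCyc 1 U.D) (hHL : HardLefschetz W U.X U.D)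
    (hHU : HodgeType W U.X U.D) : HodgeType W (Q.prod ops U).X (Q.prod ops U).D := by
  obtain ⟨f, F, hf⟩ := exists_lw hQD hQL
  obtain ⟨g, G, hg⟩ := exists_lw hB hHL
  have hst : Stable W Q.X f := stable_of_lefschetzA F.hD F.sl2 (lefschetzA_of_D F.hD F.hl hD)
  exact hodge_prod_of htens F hf F.hl hst hHQ G hg hHU

end Pool.Agent.Y103.Sh
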